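import Pool.Agent.Y772.HC.Mer
import Pool.Agent.Q282.NF.Means

/-!
# Mertens' theorem for the primes of degree one of a number field
-/

set_option autoImplicit false

namespace Q282.MN

open Finset NumberField IsDedekindDomain Filter Topology
open Q282.NF
open Q282.BP (PP)
open Pool.Agent.H921R2.TatePole (below deg nm nm_eq)
open Pool.Agent.Y773 Pool.Agent.Y767 Pool.Agent.Y772.SL Pool.Agent.Y772.NZ Pool.Agent.Y772.HC

variable (K : Type) [Field K] [NumberField K]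

/-- the number of the ideals of norm `p` -/
lemma card_norm (p : Nat.Primes) : (nu K p : ℝ) = ((Ideal.finite_setOfPred_absNorm_eq (S := 𝓞 K) p).toFinset.card : ℝ) := by
  classical
  have h1 := nu_eq (K := K) p
  rw [h1]
  unfold Pool.Agent.H921R2.TatePole.R
  congr 1
  refine card_bij (fun v _ => v.1.asIdeal) ?_ ?_ ?_
  · rintro ⟨v, hv⟩ h
    rw [mem_filter] at h
    rw [Set.Finite.mem_toFinset]
    show Ideal.absNorm v.asIdeal = p
    have h2 : deg v = 1 := h.2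
    rw [norm_eq, hv, h2, pow_one]
  · rintro ⟨v, hv⟩ _ ⟨w, hw⟩ _ h
    exact Subtype.ext (HeightOneSpectrum.ext h)
  · intro 𝔞 h
    rw [Set.Finite.mem_toFinset] at h
    have h3 : Ideal.absNorm 𝔞 = p := h
    have h4 : 𝔞.IsPrime := Ideal.isPrime_of_irreducible_absNorm (by rw [h3]; exact p.prop)
    have h5 : 𝔞 ≠ ⊥ := by
      rintro rfl
      rw [Ideal.absNorm_bot] at h3
      exact p.prop.ne_zero h3.symm
    have h6 : (((p : ℕ) : ℕ) : 𝓞 K) ∈ 𝔞 := by
      have := Ideal.absNorm_mem 𝔞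
      rw [h3] at this
      exact this
    have h7 : below (⟨𝔞, h4, h5⟩ : HeightOneSpectrum (𝓞 K)) = p := Pool.Agent.H921R2.TatePole.below_eq_of_mem h6
    refine ⟨⟨⟨𝔞, h4, h5⟩, h7⟩, ?_, rfl⟩
    rw [mem_filter]
    refine ⟨mem_univ _, ?_⟩
    have h8 := norm_eq (⟨𝔞, h4, h5⟩ : HeightOneSpectrum (𝓞 K))
    rw [h7] at h8
    have h9 : Ideal.absNorm (⟨𝔞, h4, h5⟩ : HeightOneSpectrum (𝓞 K)).asIdeal = p := h3
    rw [h9] at h8
    have h10 : (p : ℕ) ^ 1 = (p : ℕ) ^ deg (⟨𝔞, h4, h5⟩ : HeightOneSpectrum (𝓞 K)) := by rw [pow_one]; exact h8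
    exact (Nat.pow_right_injective p.prop.two_le h10).symm

lemma cK_nu (p : Nat.Primes) : ‖cK K p‖ ^ 2 = nu K p := by
  classical
  have hp := p.prop
  have hl : 0 < Real.log p := Real.log_pos (by exact_mod_cast hp.one_lt)
  have hfin : {𝔞 : Ideal (𝓞 K) | Ideal.absNorm 𝔞 = p}.Finite := Ideal.finite_setOfPred_absNorm_eq p
  have h1 : ∀ 𝔞 ∈ hfin.toFinset, VM 𝔞 = Real.log p := by
    intro 𝔞 h𝔞
    rw [Set.Finite.mem_toFinset] at h𝔞
    have h3 : Ideal.absNorm 𝔞 = p := h𝔞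
    have h4 : 𝔞.IsPrime := Ideal.isPrime_of_irreducible_absNorm (by rw [h3]; exact hp)
    have h5 : 𝔞 ≠ ⊥ := by
      rintro rfl
      rw [Ideal.absNorm_bot] at h3
      exact p.prop.ne_zero h3.symm
    have h6 : Prime 𝔞 := Ideal.prime_of_isPrime h5 h4
    have h7 := Pool.Agent.Y772.DK.VM_pow h6 one_ne_zero
    rw [pow_one, h3] at h7
    exact h7
  rw [cK_norm, ArithmeticFunction.vonMangoldt_apply_prime hp, finsum_mem_eq_finite_toFinset_sum _ hfin,
    sum_congr rfl fun 𝔞 h => by rw [h1 𝔞 h], sum_const, nsmul_eq_mul, div_pow, Real.sq_sqrt (by positivity), card_norm]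
  field_simp

/-- the sum of `log p / p` over the primes of degree one -/
noncomputable def A1 (n : ℕ) : ℝ := ∑ p ∈ PP n, nu K p * (Real.log p / p)

/-- the sum of `log p ^ 2 / p` over the primes of degree one -/
noncomputable def A2 (n : ℕ) : ℝ := ∑ p ∈ PP n, nu K p * (Real.log p ^ 2 / p)

theorem tA1 : Tendsto (fun n : ℕ => A1 K n / Real.log n) atTop (𝓝 1) := by
  classical
  obtain ⟨A, hA, hDK⟩ := Pool.Agent.Y772.DK.t_dirK K
  have hb := (hDK (one K) (one_norm K)).2.2.2.2.2.2.1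
  have h1 := selE_of (fun n => if n.Prime then cK K n else 0) (B := Module.finrank ℚ K) (fun n => by
      show ‖if n.Prime then cK K n else 0‖ ≤ _
      split_ifs
      · exact cK_le n
      · rw [norm_zero]
        positivity) (fun n => (cc (one K) n).re)
    (fun n => (Complex.abs_re_le_norm _).trans (hb n)) ∅ (fun p hp _ => by
      show ‖if p.Prime then cK K p else 0‖ ^ 2 = _
      rw [if_pos hp]
      exact cK_prime hp) (lim_one Pool.Agent.Y772.DK.t_dirK K)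
  have h2 := h1.comp tendsto_natCast_atTop_atTop
  refine h2.congr fun n => ?_
  show (∑ m ∈ Icc 1 ⌊((n : ℕ) : ℝ)⌋₊, ArithmeticFunction.vonMangoldt m * ‖if m.Prime then cK K m else 0‖ ^ 2 / m) / Real.log n = _
  rw [Nat.floor_natCast]
  congr 1
  unfold A1 BP.PP
  rw [sum_filter]
  refine sum_congr rfl fun p _ => ?_
  split_ifs with hp
  · have := cK_nu K ⟨p, hp⟩
    have h3 : ‖cK K p‖ ^ 2 = nu K p := this
    rw [h3, ArithmeticFunction.vonMangoldt_apply_prime hp]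
    ring
  · rw [norm_zero]
    ring

lemma PP_succ (n : ℕ) (F : ℕ → ℝ) : ∑ p ∈ PP (n + 1), F p = ∑ p ∈ PP n, F p + if (n + 1).Prime then F (n + 1) else 0 := by
  classical
  unfold BP.PP
  rw [sum_filter, sum_filter, sum_Icc_succ_top (by omega)]

/-- partial summation -/
lemma abel (n : ℕ) : A2 K (n + 1) = A1 K (n + 1) * Real.log (n + 1 : ℕ) - ∑ m ∈ range n, A1 K (m + 1) * (Real.log (m + 2 : ℕ) - Real.log (m + 1 : ℕ)) := by
  induction n with
  | zero =>
    unfold A2 A1 BP.PP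
    simp [sum_filter, Nat.not_prime_one]
  | succ n ih =>
    rw [sum_range_succ, show n + 1 + 1 = (n + 1) + 1 from rfl]
    have e1 : A2 K (n + 1 + 1) = A2 K (n + 1) + (if (n + 1 + 1).Prime then nu K (n + 1 + 1 : ℕ) * (Real.log (n + 1 + 1 : ℕ) ^ 2 / (n + 1 + 1 : ℕ)) else 0) := by
      unfold A2
      exact PP_succ (n + 1) _
    have e2 : A1 K (n + 1 + 1) = A1 K (n + 1) + (if (n + 1 + 1).Prime then nu K (n + 1 + 1 : ℕ) * (Real.log (n + 1 + 1 : ℕ) / (n + 1 + 1 : ℕ)) else 0) := by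
      unfold A1
      exact PP_succ (n + 1) _
    rw [e1, ih, e2]
    have e3 : n + 2 = n + 1 + 1 := rfl
    rw [e3]
    split_ifs <;> ring

lemma tele (n : ℕ) : ∑ m ∈ range n, ((1 : ℝ) / (m + 1) - 1 / (m + 2)) = 1 - 1 / (n + 1) := by
  induction n with
  | zero => simp
  | succ n ih =>
    rw [sum_range_succ, ih]
    push_cast
    field_simp
    ring

/-- the sum of the squares of the logarithms -/
lemma abel_log (n : ℕ) : |∑ m ∈ range n, Real.log (m + 1 : ℕ) * (Real.log (m + 2 : ℕ) - Real.log (m + 1 : ℕ)) - Real.log (n + 1 : ℕ) ^ 2 / 2| ≤ 1 := by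
  have h1 : ∑ m ∈ range n, Real.log (m + 1 : ℕ) * (Real.log (m + 2 : ℕ) - Real.log (m + 1 : ℕ)) - Real.log (n + 1 : ℕ) ^ 2 / 2 =
      -(1 / 2) * ∑ m ∈ range n, (Real.log (m + 2 : ℕ) - Real.log (m + 1 : ℕ)) ^ 2 := by
    induction n with
    | zero => simp
    | succ n ih =>
      rw [sum_range_succ, sum_range_succ, mul_add, ← ih]
      have e3 : n + 2 = n + 1 + 1 := rfl
      rw [e3]
      ring
  have h2 : ∀ m : ℕ, (Real.log (m + 2 : ℕ) - Real.log (m + 1 : ℕ)) ^ 2 ≤ 1 / (m + 1) - 1 / (m + 2) + (1 / (m + 1) ^ 2 - 1 / (m + 1) + 1 / (m + 2)) := by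
    intro m
    have h3 : 0 ≤ Real.log (m + 2 : ℕ) - Real.log (m + 1 : ℕ) := by
      rw [sub_nonneg]
      refine Real.log_le_log (by positivity) ?_
      push_cast
      linarith
    have h4 : Real.log (m + 2 : ℕ) - Real.log (m + 1 : ℕ) ≤ 1 / (m + 1) := by
      rw [← Real.log_div (by positivity) (by positivity)]
      refine (Real.log_le_sub_one_of_pos (by positivity)).trans (le_of_eq ?_)
      push_cast
      field_simp
      ring
    have h5 := pow_le_pow_left₀ h3 h4 2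
    rw [div_pow, one_pow] at h5
    linarith
  have h3 : ∑ m ∈ range n, (Real.log (m + 2 : ℕ) - Real.log (m + 1 : ℕ)) ^ 2 ≤ 2 := by
    have h4 : ∀ m ∈ range n, (Real.log (m + 2 : ℕ) - Real.log (m + 1 : ℕ)) ^ 2 ≤ 2 * (1 / (m + 1) - 1 / (m + 2)) := by
      intro m _
      have h5 := h2 m
      have h6 : (1 : ℝ) / (m + 1) ^ 2 ≤ 2 * (1 / (m + 1) - 1 / (m + 2)) := by
        have e : 2 * (1 / ((m : ℝ) + 1) - 1 / (m + 2)) = 2 / ((m + 1) * (m + 2)) := by
          field_simp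
          ring
        rw [e, div_le_div_iff₀ (by positivity) (by positivity)]
        have : (0 : ℝ) ≤ m := Nat.cast_nonneg m
        nlinarith
      linarith
    refine (sum_le_sum h4).trans ?_
    rw [← mul_sum]
    rw [tele]
    have : (0 : ℝ) ≤ 1 / (n + 1) := by positivity
    linarith
  have h4 : 0 ≤ ∑ m ∈ range n, (Real.log (m + 2 : ℕ) - Real.log (m + 1 : ℕ)) ^ 2 := sum_nonneg fun m _ => sq_nonneg _
  rw [h1, abs_le]
  constructor <;> linarith

theorem tA2 : Tendsto (fun n : ℕ => A2 K n / Real.log n ^ 2) atTop (𝓝 (1 / 2)) := by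
  rw [← tendsto_add_atTop_iff_nat 1, Metric.tendsto_atTop]
  intro ε hε
  have h1 := tA1 K
  rw [Metric.tendsto_atTop] at h1
  obtain ⟨N, hN⟩ := h1 (ε / 8) (by positivity)
  -- a bound for all n
  obtain ⟨C, hC0, hC⟩ : ∃ C : ℝ, 0 ≤ C ∧ ∀ m : ℕ, |A1 K (m + 1) - Real.log (m + 1 : ℕ)| ≤ ε / 8 * Real.log (m + 1 : ℕ) + C := by
    refine ⟨∑ m ∈ range (N + 1), |A1 K (m + 1) - Real.log (m + 1 : ℕ)|, sum_nonneg fun _ _ => abs_nonneg _, fun m => ?_⟩
    have hlog : 0 ≤ Real.log (m + 1 : ℕ) := Real.log_nonneg (by push_cast; linarith [Nat.cast_nonneg (α := ℝ) m])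
    rcases lt_or_ge m (N + 1) with hm | hm
    · have h2 := single_le_sum (f := fun m : ℕ => |A1 K (m + 1) - Real.log (m + 1 : ℕ)|) (fun _ _ => abs_nonneg _) (mem_range.2 hm)
      have h3 : |A1 K (m + 1) - Real.log (m + 1 : ℕ)| ≤ ∑ m ∈ range (N + 1), |A1 K (m + 1) - Real.log (m + 1 : ℕ)| := h2
      have : 0 ≤ ε / 8 * Real.log (m + 1 : ℕ) := by positivity
      linarith
    · have h2 := hN (m + 1) (by omega)
      rw [Real.dist_eq] at h2
      have hlog0 : 0 < Real.log (m + 1 : ℕ) := Real.log_pos (by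
        have : 1 ≤ m := by omega
        have : (1 : ℝ) ≤ m := by exact_mod_cast this
        push_cast
        linarith)
      have h3 : |A1 K (m + 1) - Real.log (m + 1 : ℕ)| = |A1 K (m + 1) / Real.log (m + 1 : ℕ) - 1| * Real.log (m + 1 : ℕ) := by
        rw [← abs_of_pos hlog0, ← abs_mul, abs_of_pos hlog0]
        congr 1
        field_simp
      rw [h3]
      have h4 := mul_le_mul_of_nonneg_right h2.le hlog
      have h5 : 0 ≤ ∑ m ∈ range (N + 1), |A1 K (m + 1) - Real.log (m + 1 : ℕ)| := sum_nonneg fun _ _ => abs_nonneg _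
      linarith
  have hlogt : Tendsto (fun n : ℕ => Real.log (n + 1 : ℕ)) atTop atTop :=
    (Real.tendsto_log_atTop.comp tendsto_natCast_atTop_atTop).comp (tendsto_add_atTop_nat 1)
  obtain ⟨N₂, hN₂⟩ := eventually_atTop.1 (hlogt.eventually_ge_atTop (8 * (2 * C + 1) / ε + 1))
  refine ⟨N₂, fun n hn => ?_⟩
  have h2 := hN₂ n hn
  rw [Real.dist_eq]
  obtain ⟨ℓ, hℓ⟩ : ∃ ℓ : ℝ, ℓ = Real.log (n + 1 : ℕ) := ⟨_, rfl⟩
  rw [← hℓ] at h2 ⊢
  have hq : 0 ≤ 8 * (2 * C + 1) / ε := by positivity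
  have hℓ1 : 1 ≤ ℓ := by linarith
  have hℓC : 8 * (2 * C + 1) ≤ ε * ℓ := by
    have : 8 * (2 * C + 1) / ε ≤ ℓ := by linarith
    rw [div_le_iff₀ hε] at this
    linarith
  have h3 := abel K n
  have h4 := abel_log n
  rw [← hℓ] at h3 h4
  have h5 : A2 K (n + 1) - ℓ ^ 2 / 2 = (A1 K (n + 1) - ℓ) * ℓ - ∑ m ∈ range n, (A1 K (m + 1) - Real.log (m + 1 : ℕ)) * (Real.log (m + 2 : ℕ) - Real.log (m + 1 : ℕ)) -
      (∑ m ∈ range n, Real.log (m + 1 : ℕ) * (Real.log (m + 2 : ℕ) - Real.log (m + 1 : ℕ)) - ℓ ^ 2 / 2) := by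
    rw [h3]
    have e1 : ∑ m ∈ range n, (A1 K (m + 1) - Real.log (m + 1 : ℕ)) * (Real.log (m + 2 : ℕ) - Real.log (m + 1 : ℕ)) =
        ∑ m ∈ range n, A1 K (m + 1) * (Real.log (m + 2 : ℕ) - Real.log (m + 1 : ℕ)) -
        ∑ m ∈ range n, Real.log (m + 1 : ℕ) * (Real.log (m + 2 : ℕ) - Real.log (m + 1 : ℕ)) := by
      rw [← sum_sub_distrib]
      exact sum_congr rfl fun m _ => by ring
    rw [e1]
    ring
  have h6 : |∑ m ∈ range n, (A1 K (m + 1) - Real.log (m + 1 : ℕ)) * (Real.log (m + 2 : ℕ) - Real.log (m + 1 : ℕ))| ≤ (ε / 8 * ℓ + C) * ℓ := by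
    refine (abs_sum_le_sum_abs _ _).trans ?_
    have h7 : ∀ m ∈ range n, |(A1 K (m + 1) - Real.log (m + 1 : ℕ)) * (Real.log (m + 2 : ℕ) - Real.log (m + 1 : ℕ))| ≤
        (ε / 8 * ℓ + C) * (Real.log (m + 2 : ℕ) - Real.log (m + 1 : ℕ)) := by
      intro m hm
      have hmn := mem_range.1 hm
      have h8 : 0 ≤ Real.log (m + 2 : ℕ) - Real.log (m + 1 : ℕ) := by
        rw [sub_nonneg]
        refine Real.log_le_log (by positivity) ?_
        push_cast
        linarith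
      rw [abs_mul, abs_of_nonneg h8]
      refine mul_le_mul_of_nonneg_right ((hC m).trans ?_) h8
      have h9 : Real.log (m + 1 : ℕ) ≤ ℓ := by
        rw [hℓ]
        refine Real.log_le_log (by positivity) ?_
        exact_mod_cast (by omega : m + 1 ≤ n + 1)
      have := mul_le_mul_of_nonneg_left h9 (by positivity : 0 ≤ ε / 8)
      linarith
    refine (sum_le_sum h7).trans ?_
    rw [← mul_sum]
    have h8 : ∑ m ∈ range n, (Real.log (m + 2 : ℕ) - Real.log (m + 1 : ℕ)) = ℓ := by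
      have := sum_range_sub (fun m : ℕ => Real.log (m + 1 : ℕ)) n
      simp only [Nat.cast_add, Nat.cast_one, zero_add, Real.log_one, sub_zero] at this
      rw [hℓ]
      push_cast
      rw [← this]
      refine sum_congr rfl fun m _ => ?_
      congr 2
      ring
    rw [h8]
  have h7 : |(A1 K (n + 1) - ℓ) * ℓ| ≤ (ε / 8 * ℓ + C) * ℓ := by
    rw [abs_mul, abs_of_pos (by linarith : 0 < ℓ)]
    refine mul_le_mul_of_nonneg_right ?_ (by linarith)
    have := hC n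
    rw [← hℓ] at this
    exact this
  have h8 : |A2 K (n + 1) - ℓ ^ 2 / 2| ≤ 2 * ((ε / 8 * ℓ + C) * ℓ) + 1 := by
    rw [h5]
    refine (abs_sub _ _).trans ?_
    have := abs_sub ((A1 K (n + 1) - ℓ) * ℓ) (∑ m ∈ range n, (A1 K (m + 1) - Real.log (m + 1 : ℕ)) * (Real.log (m + 2 : ℕ) - Real.log (m + 1 : ℕ)))
    linarith
  have h9 : A2 K (n + 1) / ℓ ^ 2 - 1 / 2 = (A2 K (n + 1) - ℓ ^ 2 / 2) / ℓ ^ 2 := by
    field_simp
  rw [h9, abs_div, abs_of_pos (by positivity : 0 < ℓ ^ 2), div_lt_iff₀ (by positivity)]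
  refine h8.trans_lt ?_
  have h10 : 2 * C * ℓ + 1 ≤ (2 * C + 1) * ℓ := by
    rw [add_mul, one_mul]
    linarith
  have h11 : (2 * C + 1) * ℓ ≤ ε / 8 * ℓ * ℓ := by
    refine mul_le_mul_of_nonneg_right ?_ (by linarith)
    linarith
  have h12 : 2 * ((ε / 8 * ℓ + C) * ℓ) + 1 = ε / 4 * ℓ ^ 2 + (2 * C * ℓ + 1) := by ring
  have h13 : ε / 8 * ℓ * ℓ = ε / 8 * ℓ ^ 2 := by ring
  have h14 : 0 < ε * ℓ ^ 2 := by positivity
  rw [h12]
  linarith

end Q282.MN
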