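import Pool.Agent.Q282.MN.Main
import Pool.Agent.Q282.NF.RankFam
import Pool.Agent.Q282.LD.NF

/-!
# The local data of the families over a number field, and the law of their sums
-/

set_option autoImplicit false
set_option linter.unusedSectionVars false

namespace Q282.MN

open Finset NumberField IsDedekindDomain
open scoped NNReal
open Q282.NF Q282.GK Q282.CL
open Pool.Agent.H921R2.TatePole (below deg nm nm_eq)

lemma rpow_q {q : ℝ} (hq : 0 ≤ q) : q ^ (3 / 2 : ℝ) = Real.sqrt q ^ 3 := by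
  rw [Real.sqrt_eq_rpow, ← Real.rpow_natCast, ← Real.rpow_mul hq]
  norm_num

/-- means and second moments -/
theorem lin_local {q : ℝ} (hq : 1 ≤ q) {T : Type} [Fintype T] [Nonempty T] (S : T → ℝ) (bad : T → Prop) [DecidablePred bad] (κ : ℝ)
    (hS : ∀ t, |S t| ≤ 2 * Real.sqrt q) (hb : (((univ : Finset T).filter bad).card : ℝ) * q ≤ 20 * Fintype.card T)
    (hm1 : |∑ t, S t - κ * Fintype.card T| * q ≤ 20 * Fintype.card T)
    (hm2 : |∑ t, S t ^ 2 - q * Fintype.card T| ≤ 20 * Fintype.card T) :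
    |av (fun t => if bad t then 0 else S t / q) - κ / q| ≤ 100 / q ^ (3 / 2 : ℝ) ∧
    |av (fun t => (if bad t then 0 else S t / q) ^ 2) - 1 / q| ≤ 100 / q ^ (3 / 2 : ℝ) := by
  obtain ⟨s, hs⟩ : ∃ s : ℝ, s = Real.sqrt q := ⟨_, rfl⟩
  have hq0 : 0 < q := by linarith
  have hsq : s ^ 2 = q := by rw [hs, Real.sq_sqrt hq0.le]
  have hs1 : 1 ≤ s := by rw [hs]; exact Real.one_le_sqrt.2 hq
  have hs0 : 0 < s := by linarith
  have hT0 : (0 : ℝ) < Fintype.card T := by exact_mod_cast Fintype.card_pos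
  obtain ⟨N, hN⟩ : ∃ N : ℝ, N = Fintype.card T := ⟨_, rfl⟩
  obtain ⟨β, hβ⟩ : ∃ β : ℝ, β = (((univ : Finset T).filter bad).card : ℝ) := ⟨_, rfl⟩
  have hβ0 : 0 ≤ β := by rw [hβ]; positivity
  rw [← hs] at hS
  rw [← hN] at hb hm1 hm2 hT0
  rw [← hβ] at hb
  rw [rpow_q hq0.le, ← hs]
  have hbad1 : |∑ t ∈ univ.filter bad, S t| ≤ β * (2 * s) := by
    refine (abs_sum_le_sum_abs _ _).trans ((sum_le_sum fun t _ => hS t).trans ?_)
    rw [sum_const, nsmul_eq_mul, ← hβ]
  have hbad2 : |∑ t ∈ univ.filter bad, S t ^ 2| ≤ β * (4 * q) := by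
    refine (abs_sum_le_sum_abs _ _).trans ((sum_le_sum (g := fun _ => 4 * q) fun t _ => ?_).trans ?_)
    · rw [abs_pow, ← hsq]
      refine (pow_le_pow_left₀ (abs_nonneg _) (hS t) 2).trans (le_of_eq ?_)
      ring
    · rw [sum_const, nsmul_eq_mul, ← hβ]
  have hN0 : N ≠ 0 := hT0.ne'
  have hqne : q ≠ 0 := hq0.ne'
  constructor
  · have e1 : av (fun t => if bad t then 0 else S t / q) - κ / q = ((∑ t, S t - κ * N) - ∑ t ∈ univ.filter bad, S t) / (q * N) := by
      have e2 : ∑ t, (if bad t then 0 else S t / q) = (∑ t, S t - ∑ t ∈ univ.filter bad, S t) / q := by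
        rw [sum_filter, ← sum_sub_distrib, sum_div]
        refine sum_congr rfl fun t _ => ?_
        split_ifs <;> ring
      unfold av
      rw [e2, ← hN]
      field_simp
      ring
    rw [e1, abs_div, abs_of_pos (by positivity : 0 < q * N), div_le_iff₀ (by positivity)]
    refine (abs_sub _ _).trans ?_
    have f1 : |∑ t, S t - κ * N| ≤ 20 * N / q := by
      rw [le_div_iff₀ hq0]
      exact hm1
    have f2 : β * (2 * s) ≤ 20 * N / q * (2 * s) := by
      refine mul_le_mul_of_nonneg_right ?_ (by positivity)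
      rw [le_div_iff₀ hq0]
      exact hb
    have f3 : 20 * N / q ≤ 20 * N / q * s := le_mul_of_one_le_right (by positivity) hs1
    have f4 : 100 / s ^ 3 * (q * N) = 100 * N / q * s := by
      rw [← hsq]
      field_simp
    rw [f4]
    have f5 : 100 * N / q * s = 20 * N / q * s + 20 * N / q * (2 * s) + 40 * N / q * s := by ring
    have f6 : 0 ≤ 40 * N / q * s := by positivity
    linarith
  · have e1 : av (fun t => (if bad t then 0 else S t / q) ^ 2) - 1 / q = ((∑ t, S t ^ 2 - q * N) - ∑ t ∈ univ.filter bad, S t ^ 2) / (q ^ 2 * N) := by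
      have e2 : ∑ t, (if bad t then 0 else S t / q) ^ 2 = (∑ t, S t ^ 2 - ∑ t ∈ univ.filter bad, S t ^ 2) / q ^ 2 := by
        rw [sum_filter, ← sum_sub_distrib, sum_div]
        refine sum_congr rfl fun t _ => ?_
        split_ifs <;> ring
      unfold av
      rw [e2, ← hN]
      field_simp
      ring
    rw [e1, abs_div, abs_of_pos (by positivity : 0 < q ^ 2 * N), div_le_iff₀ (by positivity)]
    refine (abs_sub _ _).trans ?_
    have f2 : β * (4 * q) ≤ 80 * N := by
      have : β * q * 4 ≤ 20 * N * 4 := mul_le_mul_of_nonneg_right hb (by norm_num)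
      linarith
    have f4 : 100 / s ^ 3 * (q ^ 2 * N) = 100 * N * s := by
      rw [← hsq]
      field_simp
    rw [f4]
    have f5 : 100 * N ≤ 100 * N * s := le_mul_of_one_le_right (by positivity) hs1
    linarith

section

variable {K : Type} [Field K] [NumberField K]

open Classical in
/-- `- a_v / q_v` -/
noncomputable def lv (v : HeightOneSpectrum (𝓞 K)) (C : 𝓞 K × 𝓞 K × 𝓞 K) : ℝ :=
  if Good C v then ((points C v : ℝ) - Ideal.absNorm v.asIdeal) / Ideal.absNorm v.asIdeal else 0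

open Classical in
/-- the function of the residues -/
noncomputable def lG (F : Type) [Field F] [Fintype F] (r : ℕ) (t : Fin (r + 3) → F) : ℝ :=
  if 2 * BP.dis (BP.fam r t) = 0 then 0 else ((Nat.card {P : F × F // P.2 ^ 2 = P.1 ^ 3 + (BP.fam r t).1 * P.1 ^ 2 + (BP.fam r t).2.1 * P.1 + (BP.fam r t).2.2} : ℝ) -
    Fintype.card F) / Fintype.card F

lemma lG_eq {F : Type} [Field F] [Fintype F] [DecidableEq F] (hF : ringChar F ≠ 2) (r : ℕ) (t : Fin (r + 3) → F) :
    lG F r t = if BP.dis (BP.fam r t) = 0 then 0 else BP.SS (BP.fam r t) / Fintype.card F := by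
  have h2 : (2 : F) ≠ 0 := Ring.two_ne_zero hF
  have h1 := card_affine hF (fun x => x ^ 3 + (BP.fam r t).1 * x ^ 2 + (BP.fam r t).2.1 * x + (BP.fam r t).2.2)
  unfold lG
  by_cases h : BP.dis (BP.fam r t) = 0
  · rw [if_pos h, if_pos (by rw [h, mul_zero])]
  · rw [if_neg h, if_neg (by
      intro h3
      rcases mul_eq_zero.1 h3 with h4 | h4
      · exact h2 h4
      · exact h h4), h1]
    congr 1
    rw [add_sub_cancel_left]
    rfl

/-- the local data -/
theorem loc2_nf (K : Type) [Field K] [NumberField K] (r : ℕ) (hr : r ≤ 2) :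
    Loc2 K (Fin (r + 3)) 5 r 100 (fun v t => lv v (family r t)) := by
  classical
  intro v
  have hmax : v.asIdeal.IsMaximal := v.isPrime.isMaximal v.ne_bot
  let _ : Field (𝓞 K ⧸ v.asIdeal) := Ideal.Quotient.field v.asIdeal
  have hfin : Finite (𝓞 K ⧸ v.asIdeal) := Nat.finite_of_card_ne_zero (nm_pos v).ne'
  let _ : Fintype (𝓞 K ⧸ v.asIdeal) := Fintype.ofFinite _
  have hcard : Fintype.card (𝓞 K ⧸ v.asIdeal) = Ideal.absNorm v.asIdeal := by
    rw [← Nat.card_eq_fintype_card]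
    rfl
  have hchar : CharP (𝓞 K ⧸ v.asIdeal) (below v : ℕ) := by
    have hp := (nm_eq v).2.2
    have h0 : (((below v : ℕ) : ℕ) : 𝓞 K ⧸ v.asIdeal) = 0 := by
      rw [← map_natCast (Ideal.Quotient.mk v.asIdeal)]
      exact Ideal.Quotient.eq_zero_iff_mem.2 hp
    exact ringChar.of_eq (CharP.ringChar_of_prime_eq_zero (below v).prop h0)
  have hrc : ringChar (𝓞 K ⧸ v.asIdeal) = (below v : ℕ) := ringChar.eq _ _
  refine ⟨𝓞 K ⧸ v.asIdeal, inferInstance, inferInstance, Ideal.Quotient.mk v.asIdeal, lG (𝓞 K ⧸ v.asIdeal) r, Ideal.Quotient.mk_surjective,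
    Ideal.mk_ker, hchar, hcard, fun t => ?_, fun u => ?_, fun h5 => ?_⟩
  · have hfam : BP.fam r (fun i => Ideal.Quotient.mk v.asIdeal (t i)) = mapC (Ideal.Quotient.mk v.asIdeal) (family r t) := by
      rw [family_eq, mapC_fam]
    have hgood : Good (family r t) v ↔ ¬ 2 * BP.dis (BP.fam r (fun i => Ideal.Quotient.mk v.asIdeal (t i))) = 0 := by
      unfold Good
      rw [hfam, mapC_dis, ← map_ofNat (Ideal.Quotient.mk v.asIdeal) 2, ← map_mul, Ideal.Quotient.eq_zero_iff_mem, disc_eq]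
    show lv v (family r t) = lG (𝓞 K ⧸ v.asIdeal) r (fun i => Ideal.Quotient.mk v.asIdeal (t i))
    unfold lv lG
    by_cases hg : Good (family r t) v
    · rw [if_pos hg, if_neg (hgood.1 hg), hcard]
      congr 2
      rw [hfam]
      rfl
    · rw [if_neg hg, if_pos (not_not.1 fun h => hg (hgood.2 h))]
  · have hq1 : (1 : ℝ) ≤ Fintype.card (𝓞 K ⧸ v.asIdeal) := by exact_mod_cast Fintype.card_pos
    by_cases h2 : ringChar (𝓞 K ⧸ v.asIdeal) = 2
    · have h3 : (2 : 𝓞 K ⧸ v.asIdeal) = 0 := by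
        have h4 : ((2 : ℕ) : 𝓞 K ⧸ v.asIdeal) = 0 := by
          rw [← h2]
          exact ringChar.Nat.cast_ringChar
        exact_mod_cast h4
      unfold lG
      rw [if_pos (by rw [h3, zero_mul]), abs_zero]
      positivity
    · rw [lG_eq h2]
      split_ifs with h3
      · rw [abs_zero]
        positivity
      · have h4 := hasse h2 (BP.fam r u)
        rw [abs_div, abs_of_pos (by linarith : (0 : ℝ) < Fintype.card (𝓞 K ⧸ v.asIdeal))]
        have hs : 0 < Real.sqrt (Fintype.card (𝓞 K ⧸ v.asIdeal)) := Real.sqrt_pos.2 (by linarith)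
        rw [div_le_div_iff₀ (by linarith) hs]
        have h5 := mul_le_mul_of_nonneg_right h4 hs.le
        rw [mul_assoc, Real.mul_self_sqrt (by linarith)] at h5
        linarith
  · have h2 : ringChar (𝓞 K ⧸ v.asIdeal) ≠ 2 := by
      rw [hrc]
      omega
    have h27 : (27 : 𝓞 K ⧸ v.asIdeal) ≠ 0 := by
      intro h
      have h3 : ((27 : ℕ) : 𝓞 K ⧸ v.asIdeal) = 0 := by exact_mod_cast h
      rw [CharP.cast_eq_zero_iff (𝓞 K ⧸ v.asIdeal) (below v : ℕ)] at h3
      have h4 : (below v : ℕ) ∣ 3 ^ 3 := by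
        norm_num
        exact h3
      have := (Nat.prime_dvd_prime_iff_eq (below v).prop Nat.prime_three).1 ((below v).prop.dvd_of_dvd_pow h4)
      omega
    have hq1 : (1 : ℝ) ≤ Fintype.card (𝓞 K ⧸ v.asIdeal) := by exact_mod_cast Fintype.card_pos
    obtain ⟨hb, hm1, hm2⟩ := BP.loc_fam h2 (Or.inl h27) r hr
    have h1 := lin_local hq1 (fun t => BP.SS (BP.fam r t)) (fun t => BP.dis (BP.fam r t) = 0) (r : ℝ) (fun t => hasse h2 (BP.fam r t)) hb hm1 hm2
    have e1 : lG (𝓞 K ⧸ v.asIdeal) r = fun t => if BP.dis (BP.fam r t) = 0 then 0 else BP.SS (BP.fam r t) / Fintype.card (𝓞 K ⧸ v.asIdeal) :=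
      funext fun t => lG_eq h2 r t
    rw [e1]
    exact h1

end

end Q282.MN
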