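import Pool.Agent.Q282.GK.NF
import Pool.Agent.Q282.CL.Brown

/-!
# Means over the residues of a number field, second moments and independence
-/

set_option autoImplicit false
set_option linter.unusedSectionVars false

namespace Q282.MN

open Finset NumberField IsDedekindDomain
open Q282.NF Q282.GK Q282.CL
open Pool.Agent.H921R2.TatePole (below deg nm nm_eq)

section

variable {O A : Type} [CommRing O] [CommRing A] [Fintype A] {ι : Type} {d : ℕ}

/-- the mean over the residues -/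
theorem av_resA [Fintype ι] [DecidableEq ι] (p : ℕ) [hp : Fact p.Prime] [CharP A p] (π : O →+* A) (hπ : Function.Surjective π)
    (b : Fin d → O) (hb : ∀ x : O, ∃ a : Fin d → ℤ, x = ∑ j, (a j : O) * b j) (G : (ι → A) → ℝ) :
    av (fun u : ι × Fin d → ZMod p => G (fun i => π (comb b (fun k => (((u k).val : ℕ) : ℤ)) i))) = av G := by
  classical
  have hne : Nonempty A := ⟨0⟩
  obtain ⟨c, hc⟩ : ∃ c : ZMod p →+* A, c = ZMod.castHom (dvd_refl p) A := ⟨_, rfl⟩
  obtain ⟨Φ, hΦ⟩ : ∃ Φ : (ι × Fin d → ZMod p) →+ (ι → A), ∀ u i, Φ u i = ∑ j, c (u (i, j)) * π (b j) :=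
    ⟨{ toFun := fun u i => ∑ j, c (u (i, j)) * π (b j)
       map_zero' := by
         funext i
         simp
       map_add' := by
         intro u v
         funext i
         simp [add_mul, sum_add_distrib] }, fun _ _ => rfl⟩
  have hsurj : Function.Surjective Φ := by
    intro v
    have h1 : ∀ i, ∃ a : Fin d → ℤ, v i = ∑ j, (a j : A) * π (b j) := by
      intro i
      obtain ⟨x, hx⟩ := hπ (v i)
      obtain ⟨a, ha⟩ := hb x
      refine ⟨a, ?_⟩
      rw [← hx, ha, map_sum]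
      refine sum_congr rfl fun j _ => ?_
      rw [map_mul, map_intCast]
    choose a ha using h1
    refine ⟨fun k => (a k.1 k.2 : ZMod p), ?_⟩
    funext i
    rw [hΦ, ha]
    refine sum_congr rfl fun j _ => ?_
    rw [map_intCast]
  have h1 : ∀ u : ι × Fin d → ZMod p, G (fun i => π (comb b (fun k => (((u k).val : ℕ) : ℤ)) i)) = G (Φ u) := by
    intro u
    congr 1
    funext i
    rw [hΦ]
    unfold comb
    rw [map_sum]
    refine sum_congr rfl fun j _ => ?_
    rw [map_mul, map_intCast, Int.cast_natCast]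
    congr 1
    have h2 : ((((u (i, j)).val : ℕ) : ZMod p)) = u (i, j) := ZMod.natCast_zmod_val _
    conv_rhs => rw [← h2]
    rw [map_natCast]
  unfold av
  rw [sum_congr rfl fun u _ => h1 u]
  have h2 := sum_surj Φ hsurj G
  have h6 : (0 : ℝ) < Fintype.card (ι × Fin d → ZMod p) := by exact_mod_cast Fintype.card_pos
  have h7 : (0 : ℝ) < Fintype.card (ι → A) := by exact_mod_cast Fintype.card_pos
  rw [div_eq_div_iff h6.ne' h7.ne']
  linarith

end

/-- means of products over products -/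
lemma av_prod_fun {F F' ι : Type} [Fintype F] [Fintype F'] [Fintype ι] [DecidableEq ι] (G : (ι → F) → ℝ) (G' : (ι → F') → ℝ) :
    av (fun u : ι → F × F' => G (fun i => (u i).1) * G' (fun i => (u i).2)) = av G * av G' := by
  classical
  have h1 : ∀ (G : (ι → F) → ℝ) (G' : (ι → F') → ℝ), ∑ u : ι → F × F', G (fun i => (u i).1) * G' (fun i => (u i).2) = (∑ u, G u) * ∑ u, G' u := by
    intro G G'
    rw [sum_mul_sum, ← Fintype.sum_prod_type' (f := fun u u' => G u * G' u')]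
    refine Fintype.sum_equiv (Equiv.arrowProdEquivProdArrow ι (fun _ => F) (fun _ => F')) _ _ fun u => ?_
    rfl
  have hcard : (Fintype.card (ι → F × F') : ℝ) = Fintype.card (ι → F) * Fintype.card (ι → F') := by
    have h2 := h1 (fun _ => 1) (fun _ => 1)
    simp only [mul_one, sum_const, card_univ, nsmul_eq_mul] at h2
    exact h2
  unfold av
  rw [h1, hcard, div_mul_div_comm]

/-- the joint mean for two different residue fields -/
theorem av_res2 {O F F' ι : Type} [CommRing O] [Field F] [Fintype F] [Field F'] [Fintype F'] [Fintype ι] [DecidableEq ι] {d : ℕ}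
    (p : ℕ) [hp : Fact p.Prime] [CharP F p] [CharP F' p] (π : O →+* F) (π' : O →+* F')
    (hππ : ∀ x y : O, ∃ z : O, π z = π x ∧ π' z = π' y) (hπ : Function.Surjective π) (hπ' : Function.Surjective π')
    (b : Fin d → O) (hb : ∀ x : O, ∃ a : Fin d → ℤ, x = ∑ j, (a j : O) * b j) (G : (ι → F) → ℝ) (G' : (ι → F') → ℝ) :
    av (fun u : ι × Fin d → ZMod p => G (fun i => π (comb b (fun k => (((u k).val : ℕ) : ℤ)) i)) *
      G' (fun i => π' (comb b (fun k => (((u k).val : ℕ) : ℤ)) i))) = av G * av G' := by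
  classical
  have hsurj : Function.Surjective (RingHom.prod π π') := by
    rintro ⟨x, y⟩
    obtain ⟨x', rfl⟩ := hπ x
    obtain ⟨y', rfl⟩ := hπ' y
    obtain ⟨z, hz, hz'⟩ := hππ x' y'
    exact ⟨z, Prod.ext hz hz'⟩
  have hcp : CharP (F × F') p := by
    constructor
    intro x
    rw [← CharP.cast_eq_zero_iff F p x]
    constructor
    · intro h
      have := congrArg Prod.fst h
      simpa using this
    · intro h
      have h' : (x : F') = 0 := by
        rw [CharP.cast_eq_zero_iff F' p x, ← CharP.cast_eq_zero_iff F p x]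
        exact h
      refine Prod.ext ?_ ?_
      · simpa using h
      · simpa using h'
  have h1 := av_resA (A := F × F') p (RingHom.prod π π') hsurj b hb (fun u : ι → F × F' => G (fun i => (u i).1) * G' (fun i => (u i).2))
  rw [av_prod_fun] at h1
  exact h1

section

variable {K : Type} [Field K] [NumberField K] {ι : Type} [Fintype ι] [DecidableEq ι]

/-- The local values: functions of the residues with given bounds, means and second moments. -/
def Loc2 (K : Type) [Field K] [NumberField K] (ι : Type) [Fintype ι] [DecidableEq ι] (P₀ : ℕ) (κ B : ℝ)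
    (val : HeightOneSpectrum (𝓞 K) → (ι → 𝓞 K) → ℝ) : Prop :=
  ∀ v : HeightOneSpectrum (𝓞 K), ∃ (F : Type) (_ : Field F) (_ : Fintype F) (π : 𝓞 K →+* F) (G : (ι → F) → ℝ),
    Function.Surjective π ∧ RingHom.ker π = v.asIdeal ∧ CharP F (below v : ℕ) ∧ Fintype.card F = Ideal.absNorm v.asIdeal ∧
    (∀ t, val v t = G (fun i => π (t i))) ∧ (∀ u, |G u| ≤ B / Real.sqrt (Fintype.card F)) ∧
    (P₀ ≤ (below v : ℕ) → |av G - κ / Fintype.card F| ≤ B / (Fintype.card F : ℝ) ^ (3 / 2 : ℝ) ∧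
      |av (fun u => G u ^ 2) - 1 / Fintype.card F| ≤ B / (Fintype.card F : ℝ) ^ (3 / 2 : ℝ))

/-- the local value as a function of the coordinates modulo `p` -/
noncomputable def vl {d : ℕ} (val : HeightOneSpectrum (𝓞 K) → (ι → 𝓞 K) → ℝ) (b : Fin d → 𝓞 K) (v : HeightOneSpectrum (𝓞 K)) (p : ℕ)
    (u : ι × Fin d → ZMod p) : ℝ := val v (comb b (fun k => (((u k).val : ℕ) : ℤ)))

variable {P₀ : ℕ} {κ B : ℝ} {val : HeightOneSpectrum (𝓞 K) → (ι → 𝓞 K) → ℝ} {d : ℕ}

lemma loc2_le (h : Loc2 K ι P₀ κ B val) (v : HeightOneSpectrum (𝓞 K)) (t : ι → 𝓞 K) :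
    |val v t| ≤ B / Real.sqrt (Ideal.absNorm v.asIdeal) := by
  obtain ⟨F, _, _, π, G, -, -, -, hcard, hval, hbd, -⟩ := h v
  rw [hval, ← hcard]
  exact hbd _

lemma loc2_res (h : Loc2 K ι P₀ κ B val) (b : Fin d → 𝓞 K) (v : HeightOneSpectrum (𝓞 K)) (p : ℕ) [hp : Fact p.Prime] (hv : (below v : ℕ) = p)
    (n : ι × Fin d → ℤ) : val v (comb b n) = vl val b v p (fun k => (n k : ZMod p)) := by
  obtain ⟨F, _, _, π, G, hπ, -, hch, -, hval, -, -⟩ := h v
  rw [hv] at hch
  unfold vl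
  rw [hval, hval]
  congr 1
  funext i
  exact comb_res p π b n i

lemma norm_three {q : ℝ} (hq : 1 ≤ q) : q ≤ q ^ (3 / 2 : ℝ) := by
  calc q = q ^ (1 : ℝ) := (Real.rpow_one q).symm
    _ ≤ _ := Real.rpow_le_rpow_of_exponent_le hq (by norm_num)

/-- the local means -/
lemma vl_mean (h : Loc2 K ι P₀ κ B val) (hB : 0 ≤ B) (b : Fin d → 𝓞 K) (hb : ∀ x : 𝓞 K, ∃ a : Fin d → ℤ, x = ∑ j, (a j : 𝓞 K) * b j)
    (v : HeightOneSpectrum (𝓞 K)) (p : ℕ) [hp : Fact p.Prime] (hv : (below v : ℕ) = p) (h0 : P₀ ≤ p) :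
    |av (vl val b v p) - κ / Ideal.absNorm v.asIdeal| ≤ B / (Ideal.absNorm v.asIdeal : ℝ) ^ (3 / 2 : ℝ) ∧
    |av (fun u => vl val b v p u ^ 2) - 1 / Ideal.absNorm v.asIdeal| ≤ B / (Ideal.absNorm v.asIdeal : ℝ) ^ (3 / 2 : ℝ) ∧
    |av (vl val b v p)| ≤ (|κ| + B) / Ideal.absNorm v.asIdeal := by
  obtain ⟨F, _, _, π, G, hπ, -, hch, hcard, hval, -, hmn⟩ := h v
  rw [hv] at hch
  obtain ⟨h1, h2⟩ := hmn (by rw [hv]; exact h0)
  rw [hcard] at h1 h2
  have e1 : av (vl val b v p) = av G := by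
    rw [← av_resA p π hπ b hb G]
    congr 1
    funext u
    exact hval _
  have e2 : av (fun u => vl val b v p u ^ 2) = av (fun u => G u ^ 2) := by
    rw [← av_resA p π hπ b hb (fun u => G u ^ 2)]
    congr 1
    funext u
    unfold vl
    rw [hval]
  rw [e1, e2]
  refine ⟨h1, h2, ?_⟩
  have hq : (1 : ℝ) ≤ Ideal.absNorm v.asIdeal := by
    rw [norm_eq, hv]
    exact_mod_cast Nat.one_le_pow _ _ hp.out.pos
  have h3 := abs_sub_abs_le_abs_sub (av G) (κ / Ideal.absNorm v.asIdeal)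
  have h4 : |κ / (Ideal.absNorm v.asIdeal : ℝ)| = |κ| / Ideal.absNorm v.asIdeal := by
    rw [abs_div, abs_of_pos (by linarith : (0 : ℝ) < Ideal.absNorm v.asIdeal)]
  have h5 : B / (Ideal.absNorm v.asIdeal : ℝ) ^ (3 / 2 : ℝ) ≤ B / Ideal.absNorm v.asIdeal :=
    div_le_div_of_nonneg_left hB (by linarith) (norm_three hq)
  rw [add_div]
  linarith

/-- independence of the values at two primes over `p` -/
lemma vl_indep (h : Loc2 K ι P₀ κ B val) (b : Fin d → 𝓞 K) (hb : ∀ x : 𝓞 K, ∃ a : Fin d → ℤ, x = ∑ j, (a j : 𝓞 K) * b j)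
    (v w : HeightOneSpectrum (𝓞 K)) (hvw : v ≠ w) (p : ℕ) [hp : Fact p.Prime] (hv : (below v : ℕ) = p) (hw : (below w : ℕ) = p) :
    av (fun u => vl val b v p u * vl val b w p u) = av (vl val b v p) * av (vl val b w p) := by
  obtain ⟨F, _, _, π, G, hπ, hker, hch, hcard, hval, -, hmn⟩ := h v
  obtain ⟨F', _, _, π', G', hπ', hker', hch', hcard', hval', -, hmn'⟩ := h w
  rw [hv] at hch
  rw [hw] at hch'
  have hmax : v.asIdeal.IsMaximal := v.isPrime.isMaximal v.ne_bot
  have hmax' : w.asIdeal.IsMaximal := w.isPrime.isMaximal w.ne_bot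
  have hcop : IsCoprime v.asIdeal w.asIdeal := Ideal.isCoprime_of_isMaximal fun h => hvw (HeightOneSpectrum.ext h)
  rw [Ideal.isCoprime_iff_exists] at hcop
  obtain ⟨a, ha, c, hc, hac⟩ := hcop
  rw [← hker, RingHom.mem_ker] at ha
  rw [← hker', RingHom.mem_ker] at hc
  have h1 := av_res2 p π π' (fun x y => ⟨x * c + y * a, by
      have h2 : c = 1 - a := by rw [← hac]; ring
      rw [map_add, map_mul, map_mul, ha, h2, map_sub, map_one, ha]
      ring, by
      have h2 : a = 1 - c := by rw [← hac]; ring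
      rw [map_add, map_mul, map_mul, hc, h2, map_sub, map_one, hc]
      ring⟩) hπ hπ' b hb G G'
  have e1 : av (vl val b v p) = av G := by
    rw [← av_resA p π hπ b hb G]
    congr 1
    funext u
    exact hval _
  have e2 : av (vl val b w p) = av G' := by
    rw [← av_resA p π' hπ' b hb G']
    congr 1
    funext u
    exact hval' _
  rw [e1, e2, ← h1]
  congr 1
  funext u
  unfold vl
  rw [hval, hval']

/-- the weighted values over `p` -/
noncomputable def HP (val : HeightOneSpectrum (𝓞 K) → (ι → 𝓞 K) → ℝ) (b : Fin d → 𝓞 K) (c : ℕ → ℝ) (P : Nat.Primes) (u : ι × Fin d → ZMod (P : ℕ)) : ℝ :=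
  ∑ v : {v : HeightOneSpectrum (𝓞 K) // below v = P}, c (Ideal.absNorm v.1.asIdeal) * vl val b v.1 P u

/-- the weighted values over `p` -/
noncomputable def Hw (val : HeightOneSpectrum (𝓞 K) → (ι → 𝓞 K) → ℝ) (b : Fin d → 𝓞 K) (c : ℕ → ℝ) (p : ℕ) (u : ι × Fin d → ZMod p) : ℝ :=
  if hp : p.Prime then HP val b c ⟨p, hp⟩ u else 0

lemma Hw_eq (b : Fin d → 𝓞 K) (c : ℕ → ℝ) (P : Nat.Primes) (u : ι × Fin d → ZMod (P : ℕ)) :
    Hw val b c P u = ∑ v : {v : HeightOneSpectrum (𝓞 K) // below v = P}, c (Ideal.absNorm v.1.asIdeal) * vl val b v.1 P u := by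
  unfold Hw
  rw [dif_pos P.prop]
  rfl

/-- the sum over the primes of bounded norm -/
lemma sum_Hw (h : Loc2 K ι P₀ κ B val) (b : Fin d → 𝓞 K) (c : ℕ → ℝ) (X : ℕ) (hc : ∀ n, X < n → c n = 0) (n : ι × Fin d → ℤ) :
    ∑ v ∈ SX K X, c (Ideal.absNorm v.asIdeal) * val v (comb b n) = ∑ p ∈ BP.PP X, Hw val b c p (fun k => (n k : ZMod p)) := by
  classical
  have h1 : ∀ p ∈ BP.PP X, Hw val b c p (fun k => (n k : ZMod p)) =
      ∑ v ∈ (SX K X).filter (fun v => (below v : ℕ) = p), c (Ideal.absNorm v.asIdeal) * val v (comb b n) := by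
    intro p hp
    obtain ⟨P, hP⟩ : ∃ P : Nat.Primes, (P : ℕ) = p := ⟨⟨p, (mem_filter.1 hp).2⟩, rfl⟩
    subst hP
    have : Fact (P : ℕ).Prime := ⟨P.prop⟩
    rw [Hw_eq]
    have h2 : ∑ v : {v : HeightOneSpectrum (𝓞 K) // below v = P}, c (Ideal.absNorm v.1.asIdeal) * vl val b v.1 P (fun k => (n k : ZMod (P : ℕ))) =
        ∑ v ∈ (univ : Finset {v : HeightOneSpectrum (𝓞 K) // below v = P}).filter (fun v => Ideal.absNorm v.1.asIdeal ≤ X),
          c (Ideal.absNorm v.1.asIdeal) * val v.1 (comb b n) := by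
      rw [sum_filter]
      refine sum_congr rfl fun v _ => ?_
      have h3 : (below v.1 : ℕ) = P := by rw [v.2]
      rw [← loc2_res h b v.1 P h3 n]
      split_ifs with h4
      · rfl
      · rw [hc _ (not_le.1 h4), zero_mul]
    rw [h2]
    refine sum_bij (fun v _ => v.1) ?_ ?_ ?_ ?_
    · rintro ⟨v, hv⟩ h3
      rw [mem_filter] at h3 ⊢
      exact ⟨mem_SX.2 h3.2, by rw [hv]⟩
    · rintro ⟨v, _⟩ _ ⟨w, _⟩ _ h3
      exact Subtype.ext h3
    · intro v hv
      rw [mem_filter] at hv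
      refine ⟨⟨v, Subtype.ext hv.2⟩, ?_, rfl⟩
      rw [mem_filter]
      exact ⟨mem_univ _, mem_SX.1 hv.1⟩
    · intro v _
      rfl
  rw [sum_congr rfl h1]
  symm
  refine sum_fiberwise_of_maps_to ?_ _
  intro v hv
  rw [mem_SX, norm_eq] at hv
  unfold BP.PP
  rw [mem_filter, mem_Icc]
  exact ⟨⟨(below v).prop.one_lt.le, (Nat.le_self_pow (nm_eq v).2.1.ne' _).trans hv⟩, (below v).prop⟩

lemma Hw_le (h : Loc2 K ι P₀ κ B val) (hB : 0 ≤ B) (b : Fin d → 𝓞 K) (c : ℕ → ℝ) (p : ℕ) (hp : p.Prime) {R : ℝ} (hR : 0 ≤ R)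
    (hc : ∀ f, 1 ≤ f → f ≤ Module.finrank ℚ K → |c (p ^ f)| ≤ R) (u : ι × Fin d → ZMod p) :
    |Hw val b c p u| ≤ (Module.finrank ℚ K * B) * R / Real.sqrt p := by
  obtain ⟨P, hP⟩ : ∃ P : Nat.Primes, (P : ℕ) = p := ⟨⟨p, hp⟩, rfl⟩
  subst hP
  rw [Hw_eq]
  refine (abs_sum_le_sum_abs _ _).trans ?_
  have hp0 : (0 : ℝ) < (P : ℕ) := by exact_mod_cast P.prop.pos
  have h1 : ∀ v : {v : HeightOneSpectrum (𝓞 K) // below v = P}, |c (Ideal.absNorm v.1.asIdeal) * vl val b v.1 P u| ≤ R * (B / Real.sqrt (P : ℕ)) := by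
    rintro ⟨v, hv⟩
    show |c (Ideal.absNorm v.asIdeal) * vl val b v P u| ≤ _
    rw [abs_mul]
    refine mul_le_mul ?_ ?_ (abs_nonneg _) hR
    · rw [norm_eq, hv]
      exact hc _ (nm_eq v).2.1 (deg_le v)
    · refine (loc2_le h v _).trans ?_
      refine div_le_div_of_nonneg_left hB (Real.sqrt_pos.2 hp0) (Real.sqrt_le_sqrt ?_)
      rw [norm_eq, hv]
      exact_mod_cast Nat.le_self_pow (nm_eq v).2.1.ne' (P : ℕ)
  refine (sum_le_sum fun v _ => h1 v).trans ?_
  rw [sum_const, card_univ, nsmul_eq_mul]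
  calc _ ≤ (Module.finrank ℚ K : ℝ) * (R * (B / Real.sqrt (P : ℕ))) := mul_le_mul_of_nonneg_right (fib_card P) (by positivity)
    _ = _ := by ring

end

end Q282.MN
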