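import Pool.Agent.Q282.CL.Brown

/-!
# The characteristic function of sums of functions of the residues with general bounds
-/

set_option autoImplicit false

namespace Q282.MN

open Finset Filter MeasureTheory
open scoped NNReal Topology
open Q282.BP (bx mem_bx card_bx PP)
open Q282.GK (kbox mean_res)
open Q282.CL
open Pool.Agent.TH894.NE (box mem_box card_box Per mean mean_mul mean_mono mean_prod)

/-- the characteristic function, the functions of a box -/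
theorem chr_bxG (d : ℕ) (V C ε : ℝ) (hV : 0 < V) (hC : 1 ≤ C) (hε : 0 < ε) : ∃ k : ℕ, 1 ≤ k ∧ ∃ X₁ : ℕ, 1 ≤ X₁ ∧ ∀ X : ℕ, X₁ ≤ X →
    ∀ L : Fin d → ℕ, (∀ i, (X : ℝ) ^ (5 * k) ≤ L i) → ∀ g : ℕ → (Fin d → ℕ) → ℝ, (∀ p : ℕ, p.Prime → Per p (g p)) →
    (∀ p : ℕ, p.Prime → mean d p (g p) = 0) → ∀ β : ℕ → ℝ, (∀ p : ℕ, p.Prime → 0 ≤ β p ∧ β p ≤ C) →
    (∀ p : ℕ, p.Prime → ∀ n, |g p n| ≤ β p) → ∑ p ∈ PP X, β p ^ 2 ≤ V → ∑ p ∈ PP X, (β p ^ 3 + β p ^ 4) ≤ ε / 3 →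
    ‖av (fun n : bx L => Complex.exp (((∑ p ∈ PP X, g p n : ℝ) : ℂ) * Complex.I)) -
      Complex.exp ((-((∑ p ∈ PP X, mean d p (fun n => g p n ^ 2)) / 2) : ℝ) : ℂ)‖ ≤ ε := by
  obtain ⟨k, hk, hk2⟩ := exists_k V (ε / 3) hV (by positivity)
  obtain ⟨X₁, hX₁⟩ := exists_nat_ge (3 * ((2 * k + 1) * 4 ^ k * C ^ (2 * k) * (2 * d)) / ε)
  refine ⟨k, hk, max X₁ (max d 1), (le_max_right _ _).trans (le_max_right _ _), ?_⟩
  intro X hX L hL g hgP hg0 β hβ hgβ hV2 h3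
  rw [max_le_iff, max_le_iff] at hX
  obtain ⟨hX1, hXd, hX0⟩ := hX
  have hXr : (1 : ℝ) ≤ X := by exact_mod_cast hX0
  have hT0 : 0 < (X : ℝ) ^ (5 * k) := by positivity
  have hS : ∀ p ∈ PP X, p.Prime := fun p hp => (mem_filter.1 hp).2
  have h4 := chr_bx (S := PP X) hS (fun p hp => hgP p (hS p hp)) (fun p hp => hg0 p (hS p hp)) (b := β) (fun p hp => (hβ p (hS p hp)).1)
    (fun p hp => hgβ p (hS p hp)) hC (fun p hp => (hβ p (hS p hp)).2) hX0 (fun p hp => (mem_Icc.1 (mem_filter.1 hp).1).2)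
    hV hV2 hk hT0 hL
  have h5 := err_le (d := d) (k := k) (Y := X) (C := C) (T := (X : ℝ) ^ (5 * k)) hk hC hX0 hXd le_rfl
  have h6 : ((2 * k + 1) * 4 ^ k * C ^ (2 * k) * (2 * d)) / X ≤ ε / 3 := by
    have h7 : 3 * ((2 * k + 1) * 4 ^ k * C ^ (2 * k) * (2 * d)) / ε ≤ X := hX₁.trans (by exact_mod_cast hX1)
    rw [div_le_iff₀ hε] at h7
    rw [div_le_iff₀ (by linarith)]
    linarith
  refine h4.trans ?_
  linarith

/-- the characteristic function, the functions of the residues -/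
theorem chr_resG (κ : Type) [Fintype κ] [DecidableEq κ] (V C ε : ℝ) (hV : 0 < V) (hC : 1 ≤ C) (hε : 0 < ε) :
    ∃ k : ℕ, 1 ≤ k ∧ ∃ X₁ : ℕ, 1 ≤ X₁ ∧ ∀ X : ℕ, X₁ ≤ X →
    ∀ (N : κ → ℤ) (L : κ → ℕ), (∀ i, (X : ℝ) ^ (5 * k) ≤ L i) → ∀ H : (p : ℕ) → (κ → ZMod p) → ℝ, ∀ β : ℕ → ℝ,
    (∀ p : ℕ, p.Prime → 0 ≤ β p ∧ β p ≤ C) → (∀ p : ℕ, p.Prime → ∀ u, |H p u| ≤ β p) → ∑ p ∈ PP X, β p ^ 2 ≤ V →
    ∑ p ∈ PP X, (β p ^ 3 + β p ^ 4) ≤ ε / 48 →
    ‖av (fun t : kbox N L => Complex.exp (((∑ p ∈ PP X, (H p (fun i => ((t : κ → ℤ) i : ZMod p)) - mn H p) : ℝ) : ℂ) * Complex.I)) -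
      Complex.exp ((-((∑ p ∈ PP X, vr H p) / 2) : ℝ) : ℂ)‖ ≤ ε := by
  classical
  obtain ⟨e⟩ : Nonempty (κ ≃ Fin (Fintype.card κ)) := ⟨Fintype.equivFin κ⟩
  obtain ⟨k, hk, X₁, hX₁, h⟩ := chr_bxG (Fintype.card κ) (4 * V) (2 * C) ε (by positivity) (by linarith) hε
  refine ⟨k, hk, X₁, hX₁, ?_⟩
  intro X hX N L hL H β hβ hH hV2 h3
  have hmn : ∀ p : ℕ, p.Prime → |mn H p| ≤ β p := by
    intro p hp
    have : Fact p.Prime := ⟨hp⟩
    rw [mn_eq]
    exact abs_av_le_const (hH p hp)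
  have h1 := h X hX (fun k => L (e.symm k)) (fun k => hL _)
    (fun p n => H p (fun i => ((N i + (n (e i) : ℤ) : ℤ) : ZMod p)) - mn H p)
    (fun p hp n => by
      have h2 : H p (fun i => ((N i + (n (e i) : ℤ) : ℤ) : ZMod p)) =
          H p (fun i => ((N i + (((fun i => n i % p) (e i) : ℕ) : ℤ) : ℤ) : ZMod p)) := by
        congr 1
        funext i
        rw [Int.cast_add, Int.cast_add, Int.cast_natCast, Int.cast_natCast, ZMod.natCast_mod]
      show H p _ - mn H p = H p _ - mn H p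
      rw [h2])
    (fun p hp => by
      have : Fact p.Prime := ⟨hp⟩
      rw [mean_av e p N (fun u => H p u - mn H p), av_sub, av_const, ← mn_eq, sub_self])
    (fun p => 2 * β p) (fun p hp => ⟨by linarith [(hβ p hp).1], by linarith [(hβ p hp).2]⟩)
    (fun p hp n => by
      have h2 := hH p hp (fun i => ((N i + (n (e i) : ℤ) : ℤ) : ZMod p))
      have h3 := hmn p hp
      exact (abs_sub _ _).trans (by linarith)) (by
      have e1 : ∑ p ∈ PP X, (2 * β p) ^ 2 = 4 * ∑ p ∈ PP X, β p ^ 2 := by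
        rw [mul_sum]
        exact sum_congr rfl fun p _ => by ring
      rw [e1]
      linarith) (by
      have e1 : ∑ p ∈ PP X, ((2 * β p) ^ 3 + (2 * β p) ^ 4) ≤ 16 * ∑ p ∈ PP X, (β p ^ 3 + β p ^ 4) := by
        rw [mul_sum]
        refine sum_le_sum fun p hp => ?_
        have h5 : 0 ≤ β p ^ 3 := pow_nonneg (hβ p (mem_filter.1 hp).2).1 3
        have h6 : (2 * β p) ^ 3 + (2 * β p) ^ 4 = 8 * β p ^ 3 + 16 * β p ^ 4 := by ring
        rw [h6]
        linarith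
      linarith)
  have h2 : av (fun t : kbox N L => Complex.exp (((∑ p ∈ PP X, (H p (fun i => ((t : κ → ℤ) i : ZMod p)) - mn H p) : ℝ) : ℂ) * Complex.I)) =
      av (fun n : bx (fun k => L (e.symm k)) => Complex.exp (((∑ p ∈ PP X, (H p (fun i => ((N i + ((n : Fin _ → ℕ) (e i) : ℤ) : ℤ) : ZMod p)) - mn H p) : ℝ) : ℂ) * Complex.I)) := by
    rw [av_equiv (kequiv e N L)]
    rfl
  have h3 : ∑ p ∈ PP X, vr H p = ∑ p ∈ PP X, mean (Fintype.card κ) p
      (fun n => (H p (fun i => ((N i + (n (e i) : ℤ) : ℤ) : ZMod p)) - mn H p) ^ 2) := by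
    refine sum_congr rfl fun p hp => ?_
    have : Fact p.Prime := ⟨(mem_filter.1 hp).2⟩
    rw [mean_av e p N (fun u => (H p u - mn H p) ^ 2)]
    have h4 : (fun u => (H p u - mn H p) ^ 2) =
        fun u => H p u ^ 2 - ((2 * mn H p) * H p u - mn H p ^ 2) := by
      funext u
      ring
    rw [h4, av_sub, av_sub, av_mul, av_const, ← mn_eq]
    unfold vr
    rw [mn_eq (fun p u => H p u ^ 2)]
    ring
  rw [h2, h3]
  exact h1

section main

/-- the data -/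
structure Dat3 (κ : Type) [Fintype κ] [DecidableEq κ] (I : Finset ℝ≥0) (V : ℝ) (δ : ℕ → ℝ) (μ : I → ℝ) where
  /-- the length -/
  X : ℕ
  /-- the exponent -/
  k : ℕ
  /-- the corner -/
  N : κ → ℤ
  /-- the sides -/
  L : κ → ℕ
  /-- the local functions -/
  h : I → (p : ℕ) → (κ → ZMod p) → ℝ
  /-- the bounds -/
  β : ℕ → ℝ
  hX : 1 ≤ X
  hL : ∀ i, (X : ℝ) ^ k ≤ L i
  hβ : ∀ p : ℕ, p.Prime → 0 ≤ β p ∧ β p ≤ V
  hh : ∀ s, ∀ p : ℕ, p.Prime → ∀ u, |h s p u| ≤ β p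
  hV : ∑ p ∈ PP X, β p ^ 2 ≤ V
  h3 : ∑ p ∈ PP X, (β p ^ 3 + β p ^ 4) ≤ δ X
  hm : ∀ s, |∑ p ∈ PP X, mn (h s) p - μ s| ≤ δ X
  hc : ∀ s s' : I, |∑ p ∈ PP X, (mn (fun p u => h s p u * h s' p u) p - mn (h s) p * mn (h s') p) -
    ((min (s : ℝ≥0) (s' : ℝ≥0) : ℝ≥0) : ℝ)| ≤ δ X

variable {κ : Type} [Fintype κ] [DecidableEq κ] {I : Finset ℝ≥0} {V : ℝ} {δ : ℕ → ℝ} {μ : I → ℝ}

lemma Dat3.pos (b : Dat3 κ I V δ μ) (i : κ) : 0 < b.L i := by
  have h1 := b.hL i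
  have h2 : (0 : ℝ) < (b.X : ℝ) ^ b.k := by
    have : (0 : ℝ) < b.X := by
      have := b.hX
      exact_mod_cast (by omega : 0 < b.X)
    positivity
  exact_mod_cast h2.trans_le h1

instance (b : Dat3 κ I V δ μ) : Nonempty (kbox b.N b.L) := kbox_nonempty b.pos

/-- the vector -/
noncomputable def Dat3.vec (b : Dat3 κ I V δ μ) (t : κ → ℤ) : EuclideanSpace ℝ I :=
  WithLp.toLp 2 fun s : I => ∑ p ∈ PP b.X, b.h s p (fun i => (t i : ZMod p)) - μ s

lemma chr_dat3 (hV : 1 ≤ V) (hδ : Tendsto δ atTop (𝓝 0)) (x : EuclideanSpace ℝ I) (ε : ℝ) (hε : 0 < ε) :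
    ∃ X₁ : ℕ, ∀ b : Dat3 κ I V δ μ, X₁ ≤ min b.X b.k →
      ‖charFun (lw (fun t : kbox b.N b.L => b.vec t) : Measure (EuclideanSpace ℝ I)) x -
        charFun (nuE I : Measure (EuclideanSpace ℝ I)) x‖ ≤ ε := by
  classical
  obtain ⟨R, hR⟩ : ∃ R : ℝ, R = ∑ s, |x s| + 1 := ⟨_, rfl⟩
  have hx0 : 0 ≤ ∑ s, |x s| := sum_nonneg fun s _ => abs_nonneg _
  have hR1 : 1 ≤ R := by
    rw [hR]
    linarith
  have hxR : ∑ s, |x s| ≤ R := by
    rw [hR]
    linarith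
  obtain ⟨k, hk, X₁, hX₁, h⟩ := chr_resG κ (R ^ 2 * V) (R * V) (ε / 3) (by positivity) (by nlinarith) (by positivity)
  obtain ⟨η, hη⟩ : ∃ η : ℝ, η = ε / (144 * R ^ 4) := ⟨_, rfl⟩
  have hη0 : 0 < η := by rw [hη]; positivity
  have hηε : η * R ^ 4 = ε / 144 := by
    rw [hη]
    field_simp
  obtain ⟨X₂, hX₂⟩ := eventually_atTop.1 (hδ.eventually_lt_const hη0)
  refine ⟨max (max X₁ X₂) (5 * k), fun b hb => ?_⟩
  rw [le_min_iff, max_le_iff, max_le_iff, max_le_iff] at hb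
  obtain ⟨⟨⟨hb1, hb2⟩, -⟩, -, hb3⟩ := hb
  have hδb : δ b.X ≤ η := (hX₂ b.X hb2).le
  have hR2 : R ≤ R ^ 4 := by
    calc R = R ^ 1 := (pow_one R).symm
      _ ≤ R ^ 4 := pow_le_pow_right₀ hR1 (by norm_num)
  have hR24 : R ^ 2 ≤ R ^ 4 := pow_le_pow_right₀ hR1 (by norm_num)
  have hR34 : R ^ 3 ≤ R ^ 4 := pow_le_pow_right₀ hR1 (by norm_num)
  have hXr : (1 : ℝ) ≤ b.X := by exact_mod_cast b.hX
  -- the sum of the functions
  obtain ⟨H, hH⟩ : ∃ H : (p : ℕ) → (κ → ZMod p) → ℝ, H = fun p u => ∑ s, x s * b.h s p u := ⟨_, rfl⟩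
  have hHb : ∀ p : ℕ, p.Prime → ∀ u, |H p u| ≤ R * b.β p := by
    intro p hp u
    rw [hH]
    refine (abs_sum_le_sum_abs _ _).trans ?_
    have h2 : ∀ s : I, |x s * b.h s p u| ≤ |x s| * b.β p := by
      intro s
      rw [abs_mul]
      exact mul_le_mul_of_nonneg_left (b.hh s p hp u) (abs_nonneg _)
    refine (sum_le_sum fun s _ => h2 s).trans ?_
    rw [← sum_mul]
    exact mul_le_mul_of_nonneg_right hxR (b.hβ p hp).1
  have h1 := h b.X hb1 b.N b.L (fun i => by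
      refine le_trans ?_ (b.hL i)
      exact pow_le_pow_right₀ hXr hb3) H (fun p => R * b.β p)
    (fun p hp => ⟨mul_nonneg (by linarith) (b.hβ p hp).1, mul_le_mul_of_nonneg_left (b.hβ p hp).2 (by linarith)⟩) hHb (by
      have e1 : ∑ p ∈ PP b.X, (R * b.β p) ^ 2 = R ^ 2 * ∑ p ∈ PP b.X, b.β p ^ 2 := by
        rw [mul_sum]
        exact sum_congr rfl fun p _ => by ring
      rw [e1]
      exact mul_le_mul_of_nonneg_left b.hV (by positivity)) (by
      have e1 : ∑ p ∈ PP b.X, ((R * b.β p) ^ 3 + (R * b.β p) ^ 4) ≤ R ^ 4 * ∑ p ∈ PP b.X, (b.β p ^ 3 + b.β p ^ 4) := by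
        rw [mul_sum]
        refine sum_le_sum fun p hp => ?_
        have h5 : 0 ≤ b.β p ^ 3 := pow_nonneg (b.hβ p (mem_filter.1 hp).2).1 3
        have h6 : R ^ 3 * b.β p ^ 3 ≤ R ^ 4 * b.β p ^ 3 := mul_le_mul_of_nonneg_right hR34 h5
        rw [mul_pow, mul_pow, mul_add]
        linarith
      have e2 : R ^ 4 * ∑ p ∈ PP b.X, (b.β p ^ 3 + b.β p ^ 4) ≤ R ^ 4 * η :=
        mul_le_mul_of_nonneg_left (b.h3.trans hδb) (by positivity)
      linarith)
  have hmnH : ∀ p : ℕ, p.Prime → mn H p = ∑ s, x s * mn (b.h s) p := by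
    intro p hp
    have : Fact p.Prime := ⟨hp⟩
    rw [mn_eq, hH]
    show av (fun u => ∑ s, x s * b.h s p u) = _
    rw [av_sum]
    refine sum_congr rfl fun s _ => ?_
    rw [av_mul, mn_eq]
  have hvrH : ∀ p : ℕ, p.Prime → vr H p = ∑ s, ∑ s', x s * x s' * (mn (fun p u => b.h s p u * b.h s' p u) p - mn (b.h s) p * mn (b.h s') p) := by
    intro p hp
    have : Fact p.Prime := ⟨hp⟩
    unfold vr
    rw [hmnH p hp, sq (∑ s, x s * mn (b.h s) p), sum_mul_sum, mn_eq, hH]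
    have e1 : (fun u => (∑ s, x s * b.h s p u) ^ 2) = fun u => ∑ s, ∑ s', (x s * x s') * (b.h s p u * b.h s' p u) := by
      funext u
      rw [sq, sum_mul_sum]
      refine sum_congr rfl fun s _ => sum_congr rfl fun s' _ => ?_
      ring
    show av (fun u => (∑ s, x s * b.h s p u) ^ 2) - _ = _
    rw [e1, av_sum, ← sum_sub_distrib]
    refine sum_congr rfl fun s _ => ?_
    rw [av_sum, ← sum_sub_distrib]
    refine sum_congr rfl fun s' _ => ?_
    rw [av_mul, mn_eq (fun p u => b.h s p u * b.h s' p u)]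
    ring
  obtain ⟨U, hU⟩ : ∃ U : (κ → ℤ) → ℝ, U = fun t => ∑ p ∈ PP b.X, (H p (fun i => (t i : ZMod p)) - mn H p) := ⟨_, rfl⟩
  have hinner : ∀ t : κ → ℤ, |(inner ℝ (b.vec t) x : ℝ) - U t| ≤ ε / 144 := by
    intro t
    have h2 : (inner ℝ (b.vec t) x : ℝ) - U t = ∑ s : I, x s * (∑ p ∈ PP b.X, mn (b.h s) p - μ s) := by
      have h3 : (inner ℝ (b.vec t) x : ℝ) = ∑ s : I, x s * (∑ p ∈ PP b.X, b.h s p (fun i => (t i : ZMod p)) - μ s) := by
        rw [PiLp.inner_apply]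
        refine sum_congr rfl fun s _ => ?_
        rw [RCLike.inner_apply, conj_trivial]
        rfl
      have h4 : U t = ∑ s : I, x s * (∑ p ∈ PP b.X, b.h s p (fun i => (t i : ZMod p)) - ∑ p ∈ PP b.X, mn (b.h s) p) := by
        rw [hU]
        show ∑ p ∈ PP b.X, (H p (fun i => (t i : ZMod p)) - mn H p) = _
        have h5 : ∀ p ∈ PP b.X, H p (fun i => (t i : ZMod p)) - mn H p = ∑ s : I, x s * (b.h s p (fun i => (t i : ZMod p)) - mn (b.h s) p) := by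
          intro p hp
          rw [hmnH p (mem_filter.1 hp).2, hH, ← sum_sub_distrib]
          exact sum_congr rfl fun s _ => by ring
        rw [sum_congr rfl h5, sum_comm]
        refine sum_congr rfl fun s _ => ?_
        rw [← mul_sum, sum_sub_distrib]
      rw [h3, h4, ← sum_sub_distrib]
      exact sum_congr rfl fun s _ => by ring
    rw [h2]
    refine (abs_sum_le_sum_abs _ _).trans ?_
    have h3 : ∀ s : I, |x s * (∑ p ∈ PP b.X, mn (b.h s) p - μ s)| ≤ |x s| * η := by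
      intro s
      rw [abs_mul]
      exact mul_le_mul_of_nonneg_left ((b.hm s).trans hδb) (abs_nonneg _)
    refine (sum_le_sum fun s _ => h3 s).trans ?_
    rw [← sum_mul]
    have h4 := mul_le_mul_of_nonneg_right (hxR.trans hR2) hη0.le
    linarith
  have g1 : ‖charFun (lw (fun t : kbox b.N b.L => b.vec t) : Measure (EuclideanSpace ℝ I)) x -
      av (fun t : kbox b.N b.L => Complex.exp ((U t : ℂ) * Complex.I))‖ ≤ ε / 3 := by
    rw [chr_lw, ← av_sub]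
    refine (norm_av_le _).trans ?_
    have h2 : ∀ t : kbox b.N b.L, ‖Complex.exp (((inner ℝ (b.vec t) x : ℝ) : ℂ) * Complex.I) -
        Complex.exp ((U t : ℂ) * Complex.I)‖ ≤ ε / 3 := by
      intro t
      obtain ⟨v, hv⟩ : ∃ v : ℝ, v = (inner ℝ (b.vec t) x : ℝ) - U t := ⟨_, rfl⟩
      have h3 : (inner ℝ (b.vec t) x : ℝ) = v + U t := by rw [hv]; ring
      have h4 := hinner t
      rw [← hv] at h4
      rw [h3]
      refine (norm_exp_sub _ _).trans (h4.trans ?_)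
      linarith
    exact (av_mono h2).trans (le_of_eq (av_const _))
  have g2 : ‖Complex.exp ((-((∑ p ∈ PP b.X, vr H p) / 2) : ℝ) : ℂ) -
      charFun (nuE I : Measure (EuclideanSpace ℝ I)) x‖ ≤ ε / 3 := by
    rw [chr_nuE]
    obtain ⟨q, hq⟩ : ∃ q : ℝ, q = ∑ s : I, ∑ t : I, x s * x t * ((min (s : ℝ≥0) (t : ℝ≥0) : ℝ≥0) : ℝ) := ⟨_, rfl⟩
    rw [← hq]
    have hq0 : 0 ≤ q := by
      have h2 := norm_charFun_le_one (μ := (nuE I : Measure (EuclideanSpace ℝ I))) x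
      rw [chr_nuE, ← hq, ← Complex.ofReal_exp, Complex.norm_real, Real.norm_of_nonneg (Real.exp_pos _).le,
        Real.exp_le_one_iff] at h2
      linarith
    obtain ⟨u, hu⟩ : ∃ u : ℝ, u = ∑ p ∈ PP b.X, vr H p := ⟨_, rfl⟩
    rw [← hu]
    have hvr : ∀ p ∈ PP b.X, 0 ≤ vr H p := by
      intro p hp
      have : Fact p.Prime := ⟨(mem_filter.1 hp).2⟩
      unfold vr
      rw [mn_eq, mn_eq]
      have h4 : 0 ≤ av (fun u => (H p u - av (H p)) ^ 2) := av_nonneg fun u => sq_nonneg _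
      have h5 : (fun u => (H p u - av (H p)) ^ 2) = fun u => H p u ^ 2 - ((2 * av (H p)) * H p u - av (H p) ^ 2) := by
        funext u
        ring
      rw [h5, av_sub, av_sub, av_mul, av_const] at h4
      linarith
    have hu0 : 0 ≤ u := by
      rw [hu]
      exact sum_nonneg hvr
    have hclose : |u - q| ≤ ε / 144 := by
      have h2 : u - q = ∑ s : I, ∑ t : I, x s * x t * (∑ p ∈ PP b.X, (mn (fun p u => b.h s p u * b.h t p u) p - mn (b.h s) p * mn (b.h t) p) -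
          ((min (s : ℝ≥0) (t : ℝ≥0) : ℝ≥0) : ℝ)) := by
        rw [hu, hq, sum_congr rfl fun p hp => hvrH p (mem_filter.1 hp).2, sum_comm, ← sum_sub_distrib]
        refine sum_congr rfl fun s _ => ?_
        rw [sum_comm, ← sum_sub_distrib]
        refine sum_congr rfl fun t _ => ?_
        rw [← mul_sum]
        ring
      rw [h2]
      refine (abs_sum_le_sum_abs _ _).trans ?_
      have h3 : ∀ s : I, |∑ t : I, x s * x t * (∑ p ∈ PP b.X, (mn (fun p u => b.h s p u * b.h t p u) p - mn (b.h s) p * mn (b.h t) p) -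
          ((min (s : ℝ≥0) (t : ℝ≥0) : ℝ≥0) : ℝ))| ≤ |x s| * (R * η) := by
        intro s
        refine (abs_sum_le_sum_abs _ _).trans ?_
        have h4 : ∀ t : I, |x s * x t * (∑ p ∈ PP b.X, (mn (fun p u => b.h s p u * b.h t p u) p - mn (b.h s) p * mn (b.h t) p) -
          ((min (s : ℝ≥0) (t : ℝ≥0) : ℝ≥0) : ℝ))| ≤ |x s| * (|x t| * η) := by
          intro t
          rw [abs_mul, abs_mul, mul_assoc]
          exact mul_le_mul_of_nonneg_left (mul_le_mul_of_nonneg_left ((b.hc s t).trans hδb) (abs_nonneg _)) (abs_nonneg _)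
        refine (sum_le_sum fun t _ => h4 t).trans ?_
        rw [← mul_sum, ← sum_mul]
        exact mul_le_mul_of_nonneg_left (mul_le_mul_of_nonneg_right hxR hη0.le) (abs_nonneg _)
      refine (sum_le_sum fun s _ => h3 s).trans ?_
      rw [← sum_mul]
      have h4 : (∑ s : I, |x s|) * (R * η) ≤ R * (R * η) := mul_le_mul_of_nonneg_right hxR (by positivity)
      have h5 : R ^ 2 * η ≤ R ^ 4 * η := mul_le_mul_of_nonneg_right hR24 hη0.le
      have h6 : R * (R * η) = R ^ 2 * η := by ring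
      linarith
    rw [← Complex.ofReal_exp, ← Complex.ofReal_exp, ← Complex.ofReal_sub, Complex.norm_real, Real.norm_eq_abs]
    refine (exp_sub_exp (by positivity) (by positivity)).trans ?_
    rw [← sub_div, abs_div, abs_of_pos (by norm_num : (0 : ℝ) < 2)]
    linarith
  have h1' : ‖av (fun t : kbox b.N b.L => Complex.exp ((U t : ℂ) * Complex.I)) -
      Complex.exp ((-((∑ p ∈ PP b.X, vr H p) / 2) : ℝ) : ℂ)‖ ≤ ε / 3 := by
    rw [hU]
    exact h1
  have t1 := norm_sub_le_norm_sub_add_norm_sub (charFun (lw (fun t : kbox b.N b.L => b.vec t) : Measure (EuclideanSpace ℝ I)) x)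
    (av (fun t : kbox b.N b.L => Complex.exp ((U t : ℂ) * Complex.I))) (charFun (nuE I : Measure (EuclideanSpace ℝ I)) x)
  have t2 := norm_sub_le_norm_sub_add_norm_sub (av (fun t : kbox b.N b.L => Complex.exp ((U t : ℂ) * Complex.I)))
    (Complex.exp ((-((∑ p ∈ PP b.X, vr H p) / 2) : ℝ) : ℂ)) (charFun (nuE I : Measure (EuclideanSpace ℝ I)) x)
  linarith

open Classical in
/-- convergence to the finite-dimensional distributions of the Brownian motion -/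
theorem fdd (hV : 1 ≤ V) (hδ : Tendsto δ atTop (𝓝 0)) (hI : ∀ s ∈ I, 0 < s) (x : I → ℝ) (ε : ℝ) (hε : 0 < ε) :
    ∃ X₁ : ℕ, ∀ b : Dat3 κ I V δ μ, X₁ ≤ b.X → X₁ ≤ b.k →
      |(((kbox b.N b.L).filter fun t => ∀ s : I, ∑ p ∈ PP b.X, b.h s p (fun i => (t i : ZMod p)) - μ s ≤ x s).card : ℝ) /
        ∏ i, (b.L i : ℝ) - W I x| ≤ ε := by
  obtain ⟨X₁, h⟩ := levy (fun b : Dat3 κ I V δ μ => min b.X b.k) (fun b => lw (fun t : kbox b.N b.L => b.vec t)) (nuE I)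
    (fun y η hη => chr_dat3 hV hδ y η hη) (orth_frontier I hI x) hε
  refine ⟨X₁, fun b hb hb' => ?_⟩
  have h1 := h b (le_min hb hb')
  rw [lw_real _ (orth_closed I x).measurableSet, ← W_eq] at h1
  have h2 : ((univ.filter fun t : kbox b.N b.L => b.vec t ∈ orth I x).card : ℝ) =
      (((kbox b.N b.L).filter fun t => ∀ s : I, ∑ p ∈ PP b.X, b.h s p (fun i => (t i : ZMod p)) - μ s ≤ x s).card : ℝ) := by
    congr 1
    refine card_bij (fun t _ => t.1) ?_ ?_ ?_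
    · intro t ht
      rw [mem_filter] at ht ⊢
      exact ⟨t.2, ht.2⟩
    · intro t _ t' _ h3
      exact Subtype.ext h3
    · intro t ht
      rw [mem_filter] at ht
      refine ⟨⟨t, ht.1⟩, ?_, rfl⟩
      rw [mem_filter]
      exact ⟨mem_univ _, ht.2⟩
  have h3 : (Fintype.card (kbox b.N b.L) : ℝ) = ∏ i, (b.L i : ℝ) := by
    rw [Fintype.card_coe]
    unfold kbox
    rw [Fintype.card_piFinset]
    push_cast
    refine prod_congr rfl fun i _ => ?_
    rw [Int.card_Ico, add_sub_cancel_left, Int.toNat_natCast]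
  rw [h2, h3] at h1
  exact h1

end main

end Q282.MN
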