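import Pool.Agent.Q282.MN.Res

/-!
# The weighted values over the rational primes: means and second moments
-/

set_option autoImplicit false
set_option linter.unusedSectionVars false

namespace Q282.MN

open Finset NumberField IsDedekindDomain
open Q282.NF Q282.GK Q282.CL
open Pool.Agent.H921R2.TatePole (below deg nm nm_eq)

section

variable {K : Type} [Field K] [NumberField K] {ι : Type} [Fintype ι] [DecidableEq ι]
variable {P₀ : ℕ} {κ B : ℝ} {val : HeightOneSpectrum (𝓞 K) → (ι → 𝓞 K) → ℝ} {d : ℕ}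

lemma nu_le (P : Nat.Primes) : 0 ≤ nu K P ∧ nu K P ≤ Module.finrank ℚ K := by
  have h1 := nu_eq (K := K) P
  have h2 := Pool.Agent.H921R2.TatePole.R_le (K := K) P
  rw [h1]
  exact ⟨by positivity, by exact_mod_cast h2⟩

lemma nu_sum_one (P : Nat.Primes) (x : ℝ) : ∑ v : {v : HeightOneSpectrum (𝓞 K) // below v = P}, (if deg v.1 = 1 then x else 0) = nu K P * x := by
  rw [nu_eq (K := K) P]
  unfold Pool.Agent.H921R2.TatePole.R
  rw [← sum_filter, sum_const, nsmul_eq_mul]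

lemma three_le {p : ℝ} (hp : 1 ≤ p) {f : ℕ} (hf : 2 ≤ f) : p ^ (3 / 2 : ℝ) ≤ p ^ f := by
  rw [← Real.rpow_natCast]
  refine Real.rpow_le_rpow_of_exponent_le hp ?_
  have : (2 : ℝ) ≤ f := by exact_mod_cast hf
  linarith

lemma av_abs {α : Type} [Fintype α] [Nonempty α] {f : α → ℝ} {c : ℝ} (h : ∀ a, |f a| ≤ c) : |av f| ≤ c := abs_av_le_const h

/-- the means -/
theorem Hw_mean (K : Type) [Field K] [NumberField K] (P₀ : ℕ) (κ B : ℝ) (hB : 0 ≤ B) : ∃ C : ℝ, 0 ≤ C ∧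
    ∀ (val : HeightOneSpectrum (𝓞 K) → (ι → 𝓞 K) → ℝ), Loc2 K ι P₀ κ B val → ∀ (P : Nat.Primes) [Fact (P : ℕ).Prime] (d : ℕ) (b : Fin d → 𝓞 K),
    (∀ x : 𝓞 K, ∃ a : Fin d → ℤ, x = ∑ j, (a j : 𝓞 K) * b j) → ∀ (c : ℕ → ℝ) (R : ℝ), 0 ≤ R →
    (∀ f, 1 ≤ f → f ≤ Module.finrank ℚ K → |c ((P : ℕ) ^ f)| ≤ R) →
    |av (Hw val b c (P : ℕ)) - c P * (κ * (nu K P / (P : ℕ)))| ≤ C * R / ((P : ℕ) : ℝ) ^ (3 / 2 : ℝ) := by
  classical
  obtain ⟨D, hD⟩ : ∃ D : ℝ, D = Module.finrank ℚ K := ⟨_, rfl⟩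
  have hD0 : 0 ≤ D := by rw [hD]; positivity
  obtain ⟨Q, hQ⟩ : ∃ Q : ℝ, Q = (P₀ : ℝ) ^ (3 / 2 : ℝ) := ⟨_, rfl⟩
  have hQ0 : 0 ≤ Q := by rw [hQ]; positivity
  refine ⟨D * (|κ| + B) + D * (B + |κ|) * Q, by positivity, ?_⟩
  intro val hloc P _ d b hb c R hR hc
  have hfin1 : 1 ≤ Module.finrank ℚ K := Module.finrank_pos
  have hp1 : (1 : ℝ) ≤ (P : ℕ) := by exact_mod_cast P.prop.one_lt.le
  have hp0 : (0 : ℝ) < (P : ℕ) := by linarith
  have hp32 : 0 < ((P : ℕ) : ℝ) ^ (3 / 2 : ℝ) := by positivity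
  have hc1 : |c P| ≤ R := by
    have := hc 1 le_rfl hfin1
    rwa [pow_one] at this
  obtain ⟨hnu0, hnu⟩ := nu_le (K := K) P
  rw [← hD] at hnu
  have hterm1 : 0 ≤ D * (|κ| + B) * R / ((P : ℕ) : ℝ) ^ (3 / 2 : ℝ) := by positivity
  have hterm2 : 0 ≤ D * (B + |κ|) * Q * R / ((P : ℕ) : ℝ) ^ (3 / 2 : ℝ) := by positivity
  rw [add_mul, add_div]
  rcases lt_or_ge (P : ℕ) P₀ with h5 | h5
  · have h1 : |av (Hw val b c (P : ℕ))| ≤ D * B * R := by
      refine av_abs fun u => ?_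
      refine (Hw_le hloc hB b c P P.prop hR hc u).trans ?_
      rw [← hD]
      refine div_le_self (by positivity) ?_
      exact Real.one_le_sqrt.2 hp1
    have h2 : |c P * (κ * (nu K P / (P : ℕ)))| ≤ R * (|κ| * D) := by
      rw [abs_mul, abs_mul, abs_div, abs_of_nonneg hnu0, abs_of_pos hp0]
      refine mul_le_mul hc1 (mul_le_mul_of_nonneg_left ?_ (abs_nonneg _)) (by positivity) hR
      exact (div_le_self hnu0 hp1).trans hnu
    have h3 : ((P : ℕ) : ℝ) ^ (3 / 2 : ℝ) ≤ Q := by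
      rw [hQ]
      refine Real.rpow_le_rpow hp0.le ?_ (by norm_num)
      exact_mod_cast h5.le
    have h4 : D * (B + |κ|) * R ≤ D * (B + |κ|) * Q * R / ((P : ℕ) : ℝ) ^ (3 / 2 : ℝ) := by
      rw [le_div_iff₀ hp32]
      calc D * (B + |κ|) * R * ((P : ℕ) : ℝ) ^ (3 / 2 : ℝ) ≤ D * (B + |κ|) * R * Q := mul_le_mul_of_nonneg_left h3 (by positivity)
        _ = _ := by ring
    have h6 := abs_sub (av (Hw val b c (P : ℕ))) (c P * (κ * (nu K P / (P : ℕ))))
    have h7 : D * B * R + R * (|κ| * D) = D * (B + |κ|) * R := by ring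
    linarith
  · have hmean : av (Hw val b c (P : ℕ)) = ∑ v : {v : HeightOneSpectrum (𝓞 K) // below v = P}, c (Ideal.absNorm v.1.asIdeal) * av (vl val b v.1 P) := by
      have e1 : Hw val b c (P : ℕ) = fun u => ∑ v : {v : HeightOneSpectrum (𝓞 K) // below v = P}, c (Ideal.absNorm v.1.asIdeal) * vl val b v.1 P u := by
        funext u
        exact Hw_eq b c P u
      rw [e1, av_sum]
      refine sum_congr rfl fun v _ => ?_
      rw [av_mul]
    have hmu : c P * (κ * (nu K P / (P : ℕ))) = ∑ v : {v : HeightOneSpectrum (𝓞 K) // below v = P}, if deg v.1 = 1 then c P * (κ / (P : ℕ)) else 0 := by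
      rw [nu_sum_one]
      ring
    have hterm : ∀ v : {v : HeightOneSpectrum (𝓞 K) // below v = P}, |c (Ideal.absNorm v.1.asIdeal) * av (vl val b v.1 P) -
        (if deg v.1 = 1 then c P * (κ / (P : ℕ)) else 0)| ≤ (|κ| + B) * R / ((P : ℕ) : ℝ) ^ (3 / 2 : ℝ) := by
      rintro ⟨v, hv⟩
      show |c (Ideal.absNorm v.asIdeal) * av (vl val b v P) - (if deg v = 1 then c P * (κ / (P : ℕ)) else 0)| ≤ _
      obtain ⟨i1, -, i3⟩ := vl_mean hloc hB b hb v P (by rw [hv]) h5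
      rw [norm_eq, hv] at i1 i3 ⊢
      by_cases hdf : deg v = 1
      · rw [if_pos hdf]
        rw [hdf, pow_one] at i1 ⊢
        rw [← mul_sub, abs_mul]
        have h6 := mul_le_mul hc1 i1 (abs_nonneg _) hR
        refine h6.trans ?_
        rw [← mul_div_assoc]
        refine div_le_div_of_nonneg_right ?_ hp32.le
        have : 0 ≤ |κ| * R := by positivity
        linarith
      · rw [if_neg hdf, sub_zero, abs_mul]
        have hd2 : 2 ≤ deg v := by
          have := (nm_eq v).2.1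
          omega
        have h6 := mul_le_mul (hc (deg v) (nm_eq v).2.1 (deg_le v)) i3 (abs_nonneg _) hR
        refine h6.trans ?_
        rw [← mul_div_assoc, mul_comm R]
        refine div_le_div_of_nonneg_left (by positivity) hp32 ?_
        push_cast
        exact three_le hp1 hd2
    rw [hmean, hmu, ← sum_sub_distrib]
    refine (abs_sum_le_sum_abs _ _).trans ((sum_le_sum fun v _ => hterm v).trans ?_)
    rw [sum_const, card_univ, nsmul_eq_mul]
    have h1 := fib_card (K := K) P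
    rw [← hD] at h1
    have h2 := mul_le_mul_of_nonneg_right h1 (by positivity : 0 ≤ (|κ| + B) * R / ((P : ℕ) : ℝ) ^ (3 / 2 : ℝ))
    have h3 : D * ((|κ| + B) * R / ((P : ℕ) : ℝ) ^ (3 / 2 : ℝ)) = D * (|κ| + B) * R / ((P : ℕ) : ℝ) ^ (3 / 2 : ℝ) := by ring
    linarith

/-- the second moments -/
theorem Hw_mul (K : Type) [Field K] [NumberField K] (P₀ : ℕ) (κ B : ℝ) (hB : 0 ≤ B) : ∃ C : ℝ, 0 ≤ C ∧
    ∀ (val : HeightOneSpectrum (𝓞 K) → (ι → 𝓞 K) → ℝ), Loc2 K ι P₀ κ B val → ∀ (P : Nat.Primes) [Fact (P : ℕ).Prime] (d : ℕ) (b : Fin d → 𝓞 K),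
    (∀ x : 𝓞 K, ∃ a : Fin d → ℤ, x = ∑ j, (a j : 𝓞 K) * b j) → ∀ (c c' : ℕ → ℝ) (R : ℝ), 0 ≤ R →
    (∀ f, 1 ≤ f → f ≤ Module.finrank ℚ K → |c ((P : ℕ) ^ f)| ≤ R) → (∀ f, 1 ≤ f → f ≤ Module.finrank ℚ K → |c' ((P : ℕ) ^ f)| ≤ R) →
    |av (fun u => Hw val b c (P : ℕ) u * Hw val b c' (P : ℕ) u) - c P * c' P * (nu K P / (P : ℕ))| ≤ C * R ^ 2 / ((P : ℕ) : ℝ) ^ (3 / 2 : ℝ) := by
  classical
  obtain ⟨D, hD⟩ : ∃ D : ℝ, D = Module.finrank ℚ K := ⟨_, rfl⟩
  have hD0 : 0 ≤ D := by rw [hD]; positivity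
  obtain ⟨Q, hQ⟩ : ∃ Q : ℝ, Q = (P₀ : ℝ) ^ (3 / 2 : ℝ) := ⟨_, rfl⟩
  have hQ0 : 0 ≤ Q := by rw [hQ]; positivity
  obtain ⟨W, hW⟩ : ∃ W : ℝ, W = B + 1 + (|κ| + B) ^ 2 := ⟨_, rfl⟩
  have hW0 : 0 ≤ W := by rw [hW]; positivity
  refine ⟨D * (D * W) + (D ^ 2 * B ^ 2 + D) * Q, by positivity, ?_⟩
  intro val hloc P _ d b hb c c' R hR hc hc'
  have hfin1 : 1 ≤ Module.finrank ℚ K := Module.finrank_pos
  have hp1 : (1 : ℝ) ≤ (P : ℕ) := by exact_mod_cast P.prop.one_lt.le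
  have hp0 : (0 : ℝ) < (P : ℕ) := by linarith
  have hp32 : 0 < ((P : ℕ) : ℝ) ^ (3 / 2 : ℝ) := by positivity
  have hc1 : |c P| ≤ R := by
    have := hc 1 le_rfl hfin1
    rwa [pow_one] at this
  have hc1' : |c' P| ≤ R := by
    have := hc' 1 le_rfl hfin1
    rwa [pow_one] at this
  obtain ⟨hnu0, hnu⟩ := nu_le (K := K) P
  rw [← hD] at hnu
  have hterm1 : 0 ≤ D * (D * W) * R ^ 2 / ((P : ℕ) : ℝ) ^ (3 / 2 : ℝ) := by positivity
  have hterm2 : 0 ≤ (D ^ 2 * B ^ 2 + D) * Q * R ^ 2 / ((P : ℕ) : ℝ) ^ (3 / 2 : ℝ) := by positivity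
  rw [add_mul, add_div]
  rcases lt_or_ge (P : ℕ) P₀ with h5 | h5
  · have h0 : ∀ (c : ℕ → ℝ), (∀ f, 1 ≤ f → f ≤ Module.finrank ℚ K → |c ((P : ℕ) ^ f)| ≤ R) → ∀ u, |Hw val b c (P : ℕ) u| ≤ D * B * R := by
      intro c hc u
      refine (Hw_le hloc hB b c P P.prop hR hc u).trans ?_
      rw [← hD]
      refine div_le_self (by positivity) ?_
      exact Real.one_le_sqrt.2 hp1
    have h1 : |av (fun u => Hw val b c (P : ℕ) u * Hw val b c' (P : ℕ) u)| ≤ (D * B * R) * (D * B * R) := by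
      refine av_abs fun u => ?_
      rw [abs_mul]
      exact mul_le_mul (h0 c hc u) (h0 c' hc' u) (abs_nonneg _) (by positivity)
    have h2 : |c P * c' P * (nu K P / (P : ℕ))| ≤ R * R * D := by
      rw [abs_mul, abs_mul, abs_div, abs_of_nonneg hnu0, abs_of_pos hp0]
      refine mul_le_mul (mul_le_mul hc1 hc1' (abs_nonneg _) hR) ?_ (by positivity) (by positivity)
      exact (div_le_self hnu0 hp1).trans hnu
    have h3 : ((P : ℕ) : ℝ) ^ (3 / 2 : ℝ) ≤ Q := by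
      rw [hQ]
      refine Real.rpow_le_rpow hp0.le ?_ (by norm_num)
      exact_mod_cast h5.le
    have h4 : (D ^ 2 * B ^ 2 + D) * R ^ 2 ≤ (D ^ 2 * B ^ 2 + D) * Q * R ^ 2 / ((P : ℕ) : ℝ) ^ (3 / 2 : ℝ) := by
      rw [le_div_iff₀ hp32]
      calc (D ^ 2 * B ^ 2 + D) * R ^ 2 * ((P : ℕ) : ℝ) ^ (3 / 2 : ℝ) ≤ (D ^ 2 * B ^ 2 + D) * R ^ 2 * Q := mul_le_mul_of_nonneg_left h3 (by positivity)
        _ = _ := by ring
    have h6 := abs_sub (av (fun u => Hw val b c (P : ℕ) u * Hw val b c' (P : ℕ) u)) (c P * c' P * (nu K P / (P : ℕ)))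
    have h7 : (D * B * R) * (D * B * R) + R * R * D = (D ^ 2 * B ^ 2 + D) * R ^ 2 := by ring
    linarith
  · have hmean : av (fun u => Hw val b c (P : ℕ) u * Hw val b c' (P : ℕ) u) = ∑ v : {v : HeightOneSpectrum (𝓞 K) // below v = P},
        ∑ w : {v : HeightOneSpectrum (𝓞 K) // below v = P}, (c (Ideal.absNorm v.1.asIdeal) * c' (Ideal.absNorm w.1.asIdeal)) *
          av (fun u => vl val b v.1 P u * vl val b w.1 P u) := by
      have e1 : (fun u => Hw val b c (P : ℕ) u * Hw val b c' (P : ℕ) u) = fun u => ∑ v : {v : HeightOneSpectrum (𝓞 K) // below v = P},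
          ∑ w : {v : HeightOneSpectrum (𝓞 K) // below v = P}, (c (Ideal.absNorm v.1.asIdeal) * c' (Ideal.absNorm w.1.asIdeal)) * (vl val b v.1 P u * vl val b w.1 P u) := by
        funext u
        rw [Hw_eq, Hw_eq, sum_mul_sum]
        refine sum_congr rfl fun v _ => sum_congr rfl fun w _ => ?_
        ring
      rw [e1, av_sum]
      refine sum_congr rfl fun v _ => ?_
      rw [av_sum]
      refine sum_congr rfl fun w _ => ?_
      rw [av_mul]
    have hmu : c P * c' P * (nu K P / (P : ℕ)) = ∑ v : {v : HeightOneSpectrum (𝓞 K) // below v = P},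
        ∑ w : {v : HeightOneSpectrum (𝓞 K) // below v = P}, if v = w then (if deg v.1 = 1 then c P * c' P * (1 / (P : ℕ)) else 0) else 0 := by
      have e1 : ∀ v : {v : HeightOneSpectrum (𝓞 K) // below v = P},
        ∑ w : {v : HeightOneSpectrum (𝓞 K) // below v = P}, (if v = w then (if deg v.1 = 1 then c P * c' P * (1 / ((P : ℕ) : ℝ)) else 0) else 0) =
          if deg v.1 = 1 then c P * c' P * (1 / ((P : ℕ) : ℝ)) else 0 := by
        intro v
        rw [sum_ite_eq, if_pos (mem_univ _)]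
      rw [sum_congr rfl fun v _ => e1 v, nu_sum_one]
      ring
    have hterm : ∀ v w : {v : HeightOneSpectrum (𝓞 K) // below v = P}, |(c (Ideal.absNorm v.1.asIdeal) * c' (Ideal.absNorm w.1.asIdeal)) *
          av (fun u => vl val b v.1 P u * vl val b w.1 P u) - (if v = w then (if deg v.1 = 1 then c P * c' P * (1 / (P : ℕ)) else 0) else 0)| ≤
        W * R ^ 2 / ((P : ℕ) : ℝ) ^ (3 / 2 : ℝ) := by
      intro v w
      have hcv : |c (Ideal.absNorm v.1.asIdeal)| ≤ R := by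
        rw [norm_eq, v.2]
        exact hc _ (nm_eq v.1).2.1 (deg_le v.1)
      have hcw : |c' (Ideal.absNorm w.1.asIdeal)| ≤ R := by
        rw [norm_eq, w.2]
        exact hc' _ (nm_eq w.1).2.1 (deg_le w.1)
      have hqv : ((P : ℕ) : ℝ) ≤ Ideal.absNorm v.1.asIdeal := by
        rw [norm_eq, v.2]
        exact_mod_cast Nat.le_self_pow (nm_eq v.1).2.1.ne' (P : ℕ)
      have hqw : ((P : ℕ) : ℝ) ≤ Ideal.absNorm w.1.asIdeal := by
        rw [norm_eq, w.2]
        exact_mod_cast Nat.le_self_pow (nm_eq w.1).2.1.ne' (P : ℕ)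
      obtain ⟨i1, i2, i3⟩ := vl_mean hloc hB b hb v.1 P (by rw [v.2]) h5
      obtain ⟨j1, j2, j3⟩ := vl_mean hloc hB b hb w.1 P (by rw [w.2]) h5
      by_cases hvw : v = w
      · rw [if_pos hvw, ← hvw]
        rw [← hvw] at hcw
        have e2 : (fun u => vl val b v.1 P u * vl val b v.1 P u) = fun u => vl val b v.1 P u ^ 2 := by
          funext u
          ring
        rw [e2]
        by_cases hdf : deg v.1 = 1
        · rw [if_pos hdf]
          have hn : Ideal.absNorm v.1.asIdeal = P := by rw [norm_eq, v.2, hdf, pow_one]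
          rw [hn] at i2 ⊢
          rw [← mul_sub, abs_mul, abs_mul]
          have h6 := mul_le_mul (mul_le_mul hc1 hc1' (abs_nonneg _) hR) i2 (abs_nonneg _) (by positivity)
          refine h6.trans ?_
          rw [← mul_div_assoc]
          refine div_le_div_of_nonneg_right ?_ hp32.le
          have h7 : 0 ≤ (1 + (|κ| + B) ^ 2) * R ^ 2 := by positivity
          rw [hW]
          linarith
        · rw [if_neg hdf, sub_zero, abs_mul, abs_mul]
          have hd2 : 2 ≤ deg v.1 := by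
            have := (nm_eq v.1).2.1
            omega
          have hq2 : ((P : ℕ) : ℝ) ^ (3 / 2 : ℝ) ≤ Ideal.absNorm v.1.asIdeal := by
            rw [norm_eq, v.2]
            push_cast
            exact three_le hp1 hd2
          have hq1 : (1 : ℝ) ≤ Ideal.absNorm v.1.asIdeal := hp1.trans hqv
          have h7 : |av (fun u => vl val b v.1 P u ^ 2)| ≤ (B + 1) / ((P : ℕ) : ℝ) ^ (3 / 2 : ℝ) := by
            have h8 := abs_sub_abs_le_abs_sub (av (fun u => vl val b v.1 P u ^ 2)) (1 / Ideal.absNorm v.1.asIdeal)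
            have h9 : |(1 : ℝ) / Ideal.absNorm v.1.asIdeal| ≤ 1 / ((P : ℕ) : ℝ) ^ (3 / 2 : ℝ) := by
              rw [abs_of_nonneg (by positivity)]
              exact one_div_le_one_div_of_le hp32 hq2
            have h10 : B / (Ideal.absNorm v.1.asIdeal : ℝ) ^ (3 / 2 : ℝ) ≤ B / ((P : ℕ) : ℝ) ^ (3 / 2 : ℝ) :=
              div_le_div_of_nonneg_left hB hp32 (hq2.trans (norm_three hq1))
            rw [add_div]
            linarith
          have h6 := mul_le_mul (mul_le_mul hcv hcw (abs_nonneg _) hR) h7 (abs_nonneg _) (by positivity)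
          refine h6.trans ?_
          rw [← mul_div_assoc]
          refine div_le_div_of_nonneg_right ?_ hp32.le
          have h8 : 0 ≤ (|κ| + B) ^ 2 * R ^ 2 := by positivity
          rw [hW]
          linarith
      · rw [if_neg hvw, sub_zero, abs_mul, abs_mul,
          vl_indep hloc b hb v.1 w.1 (fun h => hvw (Subtype.ext h)) P (by rw [v.2]) (by rw [w.2]), abs_mul]
        have hk0 : 0 ≤ |κ| + B := by positivity
        have h7 : |av (vl val b v.1 P)| ≤ (|κ| + B) / (P : ℕ) := i3.trans (div_le_div_of_nonneg_left hk0 hp0 hqv)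
        have h8 : |av (vl val b w.1 P)| ≤ (|κ| + B) / (P : ℕ) := j3.trans (div_le_div_of_nonneg_left hk0 hp0 hqw)
        have h6 := mul_le_mul (mul_le_mul hcv hcw (abs_nonneg _) hR) (mul_le_mul h7 h8 (abs_nonneg _) (by positivity)) (by positivity) (by positivity)
        refine h6.trans ?_
        have h9 : ((P : ℕ) : ℝ) ^ (3 / 2 : ℝ) ≤ ((P : ℕ) : ℝ) ^ 2 := three_le hp1 le_rfl
        calc R * R * ((|κ| + B) / (P : ℕ) * ((|κ| + B) / (P : ℕ))) = (|κ| + B) ^ 2 * R ^ 2 / ((P : ℕ) : ℝ) ^ 2 := by ring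
          _ ≤ (|κ| + B) ^ 2 * R ^ 2 / ((P : ℕ) : ℝ) ^ (3 / 2 : ℝ) := div_le_div_of_nonneg_left (by positivity) hp32 h9
          _ ≤ _ := by
            refine div_le_div_of_nonneg_right ?_ hp32.le
            have h10 : 0 ≤ (B + 1) * R ^ 2 := by positivity
            rw [hW]
            linarith
    rw [hmean, hmu, ← sum_sub_distrib]
    have h1 := fib_card (K := K) P
    rw [← hD] at h1
    have hE0 : 0 ≤ W * R ^ 2 / ((P : ℕ) : ℝ) ^ (3 / 2 : ℝ) := by positivity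
    have h2 : ∀ v : {v : HeightOneSpectrum (𝓞 K) // below v = P}, |∑ w : {v : HeightOneSpectrum (𝓞 K) // below v = P}, (c (Ideal.absNorm v.1.asIdeal) * c' (Ideal.absNorm w.1.asIdeal)) *
          av (fun u => vl val b v.1 P u * vl val b w.1 P u) -
        ∑ w : {v : HeightOneSpectrum (𝓞 K) // below v = P}, (if v = w then (if deg v.1 = 1 then c P * c' P * (1 / (P : ℕ)) else 0) else 0)| ≤
        D * (W * R ^ 2 / ((P : ℕ) : ℝ) ^ (3 / 2 : ℝ)) := by
      intro v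
      rw [← sum_sub_distrib]
      refine (abs_sum_le_sum_abs _ _).trans ((sum_le_sum fun w _ => hterm v w).trans ?_)
      rw [sum_const, card_univ, nsmul_eq_mul]
      exact mul_le_mul_of_nonneg_right h1 hE0
    refine (abs_sum_le_sum_abs _ _).trans ((sum_le_sum fun v _ => h2 v).trans ?_)
    rw [sum_const, card_univ, nsmul_eq_mul]
    have h3 := mul_le_mul_of_nonneg_right h1 (by positivity : 0 ≤ D * (W * R ^ 2 / ((P : ℕ) : ℝ) ^ (3 / 2 : ℝ)))
    have h4 : D * (D * (W * R ^ 2 / ((P : ℕ) : ℝ) ^ (3 / 2 : ℝ))) = D * (D * W) * R ^ 2 / ((P : ℕ) : ℝ) ^ (3 / 2 : ℝ) := by ring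
    linarith

end

end Q282.MN
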