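import Pool.Agent.Q282.MN.Loc
import Pool.Agent.Q282.MN.Mert
import Pool.Agent.Q282.MN.Gen

/-!
# The law of the weighted sums over the primes of a number field
-/

set_option autoImplicit false
set_option linter.unusedSectionVars false

namespace Q282.MN

open Finset NumberField IsDedekindDomain Filter Topology
open scoped NNReal
open Q282.NF Q282.GK Q282.CL
open Q282.BP (PP)
open Pool.Agent.H921R2.TatePole (below deg nm nm_eq)

/-- the times -/
noncomputable def tx (X : ℕ) (s : ℝ) : ℕ := ⌊(X : ℝ) ^ Real.sqrt s⌋₊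

lemma log_floor {y : ℝ} (hy : 1 ≤ y) : |Real.log ⌊y⌋₊ - Real.log y| ≤ 1 := by
  have h1 : (⌊y⌋₊ : ℝ) ≤ y := Nat.floor_le (by linarith)
  have h2 : y < ⌊y⌋₊ + 1 := Nat.lt_floor_add_one y
  have h3 : (1 : ℝ) ≤ ⌊y⌋₊ := by exact_mod_cast Nat.le_floor (by exact_mod_cast hy)
  have h4 : Real.log ⌊y⌋₊ ≤ Real.log y := Real.log_le_log (by linarith) h1
  have h5 : Real.log y ≤ Real.log 2 + Real.log ⌊y⌋₊ := by
    rw [← Real.log_mul (by norm_num) (by linarith)]
    exact Real.log_le_log (by linarith) (by linarith)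
  have h6 : Real.log 2 ≤ 1 := by
    have := Real.log_two_lt_d9
    linarith
  rw [abs_le]
  constructor <;> linarith

lemma tx_le {X : ℕ} (hX : 1 ≤ X) {s : ℝ} (hs : s ≤ 1) : tx X s ≤ X := by
  have hX0 : (1 : ℝ) ≤ X := by exact_mod_cast hX
  have h1 : (X : ℝ) ^ Real.sqrt s ≤ X := by
    calc (X : ℝ) ^ Real.sqrt s ≤ (X : ℝ) ^ (1 : ℝ) := Real.rpow_le_rpow_of_exponent_le hX0 (Real.sqrt_le_one.2 hs)
      _ = X := Real.rpow_one _
  unfold tx
  exact (Nat.floor_le_floor h1).trans (by rw [Nat.floor_natCast])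

lemma tx_mono {X : ℕ} (hX : 1 ≤ X) {s s' : ℝ} (h : s ≤ s') : tx X s ≤ tx X s' := by
  have hX0 : (1 : ℝ) ≤ X := by exact_mod_cast hX
  exact Nat.floor_le_floor (Real.rpow_le_rpow_of_exponent_le hX0 (Real.sqrt_le_sqrt h))

lemma logX_tendsto : Tendsto (fun X : ℕ => Real.log X) atTop atTop := Real.tendsto_log_atTop.comp tendsto_natCast_atTop_atTop

lemma inv_logX : Tendsto (fun X : ℕ => 1 / Real.log X) atTop (𝓝 0) := by
  refine (tendsto_inv_atTop_zero.comp logX_tendsto).congr fun X => ?_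
  exact (one_div _).symm

lemma tx_log {s : ℝ} (hs : 0 < s) : Tendsto (fun X : ℕ => Real.log (tx X s) / Real.log X) atTop (𝓝 (Real.sqrt s)) := by
  have h1 : ∀ᶠ X : ℕ in atTop, |Real.log (tx X s) / Real.log X - Real.sqrt s| ≤ 1 / Real.log X := by
    filter_upwards [logX_tendsto.eventually_gt_atTop 0, eventually_ge_atTop 1] with X hX hX1
    have hX0 : (1 : ℝ) ≤ X := by exact_mod_cast hX1
    have h2 : 1 ≤ (X : ℝ) ^ Real.sqrt s := Real.one_le_rpow hX0 (Real.sqrt_nonneg s)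
    have h3 := log_floor h2
    rw [Real.log_rpow (by linarith)] at h3
    have h4 : Real.log (tx X s) / Real.log X - Real.sqrt s = (Real.log (tx X s) - Real.sqrt s * Real.log X) / Real.log X := by
      field_simp
    rw [h4, abs_div, abs_of_pos hX]
    exact div_le_div_of_nonneg_right h3 hX.le
  have h2 : Tendsto (fun X : ℕ => Real.log (tx X s) / Real.log X - Real.sqrt s) atTop (𝓝 0) :=
    squeeze_zero_norm' (by simpa [Real.norm_eq_abs] using h1) inv_logX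
  have h3 := h2.add_const (Real.sqrt s)
  rw [zero_add] at h3
  refine h3.congr fun X => ?_
  ring

lemma tx_tendsto {s : ℝ} (hs : 0 < s) : Tendsto (fun X : ℕ => tx X s) atTop atTop := by
  unfold tx
  exact tendsto_nat_floor_atTop.comp ((tendsto_rpow_atTop (Real.sqrt_pos.2 hs)).comp tendsto_natCast_atTop_atTop)

lemma limA1 (K : Type) [Field K] [NumberField K] {s : ℝ} (hs : 0 < s) :
    Tendsto (fun X : ℕ => A1 K (tx X s) / Real.log X) atTop (𝓝 (Real.sqrt s)) := by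
  have h1 := ((tA1 K).comp (tx_tendsto hs)).mul (tx_log hs)
  rw [one_mul] at h1
  refine h1.congr' ?_
  filter_upwards [(logX_tendsto.comp (tx_tendsto hs)).eventually_gt_atTop 0] with X hX
  have hX' : 0 < Real.log (tx X s) := hX
  show A1 K (tx X s) / Real.log (tx X s) * (Real.log (tx X s) / Real.log X) = _
  field_simp

lemma limA2 (K : Type) [Field K] [NumberField K] {s : ℝ} (hs : 0 < s) :
    Tendsto (fun X : ℕ => A2 K (tx X s) / Real.log X ^ 2) atTop (𝓝 (s / 2)) := by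
  have h1 := ((tA2 K).comp (tx_tendsto hs)).mul ((tx_log hs).pow 2)
  rw [Real.sq_sqrt hs.le] at h1
  have e : 1 / 2 * s = s / 2 := by ring
  rw [e] at h1
  refine h1.congr' ?_
  filter_upwards [(logX_tendsto.comp (tx_tendsto hs)).eventually_gt_atTop 0] with X hX
  have hX' : 0 < Real.log (tx X s) := hX
  show A2 K (tx X s) / Real.log (tx X s) ^ 2 * (Real.log (tx X s) / Real.log X) ^ 2 = _
  field_simp

/-- sums of `log p / p ^ (3 / 2)` -/
lemma summ_log : ∃ C : ℝ, 0 < C ∧ ∀ S : Finset ℕ, (∀ p ∈ S, p.Prime) → ∑ p ∈ S, Real.log p / (p : ℝ) ^ (3 / 2 : ℝ) ≤ C := by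
  have h1 : Summable fun n : ℕ => 4 * ((n : ℝ) ^ (5 / 4 : ℝ))⁻¹ := (Real.summable_nat_rpow_inv.2 (by norm_num)).mul_left 4
  refine ⟨∑' n : ℕ, 4 * ((n : ℝ) ^ (5 / 4 : ℝ))⁻¹ + 1, by
    have : 0 ≤ ∑' n : ℕ, 4 * ((n : ℝ) ^ (5 / 4 : ℝ))⁻¹ := tsum_nonneg fun n => by positivity
    linarith, fun S hS => ?_⟩
  have h2 : ∑ p ∈ S, Real.log p / (p : ℝ) ^ (3 / 2 : ℝ) ≤ ∑ p ∈ S, 4 * ((p : ℝ) ^ (5 / 4 : ℝ))⁻¹ := by
    refine sum_le_sum fun p hp => ?_
    have hp0 : (0 : ℝ) < p := by exact_mod_cast (hS p hp).pos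
    have h3 : Real.log p ≤ (p : ℝ) ^ (1 / 4 : ℝ) / (1 / 4) := Real.log_le_rpow_div hp0.le (by norm_num)
    rw [div_le_iff₀ (by positivity)]
    have h4 : 4 * ((p : ℝ) ^ (5 / 4 : ℝ))⁻¹ * (p : ℝ) ^ (3 / 2 : ℝ) = (p : ℝ) ^ (1 / 4 : ℝ) / (1 / 4) := by
      rw [← Real.rpow_neg hp0.le, mul_assoc, ← Real.rpow_add hp0]
      norm_num
      ring
    rw [h4]
    exact h3
  have h3 := h1.sum_le_tsum S fun n _ => by positivity
  linarith

lemma log_le_sqrt {x : ℝ} (hx : 0 < x) : Real.log x ≤ Real.sqrt x := by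
  have h1 := Real.add_one_le_exp (Real.log x / 2)
  have h2 : Real.exp (Real.log x / 2) = Real.sqrt x := by
    rw [Real.sqrt_eq_rpow, Real.rpow_def_of_pos hx]
    ring_nf
  have h3 := Real.add_one_le_exp (Real.log x / 2 - 1)
  have h4 : Real.exp (Real.log x / 2 - 1) = Real.sqrt x / Real.exp 1 := by
    rw [Real.exp_sub, h2]
  have h5 : 2 ≤ Real.exp 1 := by linarith [Real.add_one_le_exp (1 : ℝ)]
  have h6 : Real.sqrt x / Real.exp 1 ≤ Real.sqrt x / 2 := div_le_div_of_nonneg_left (Real.sqrt_nonneg x) (by norm_num) h5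
  linarith

/-- the weights -/
noncomputable def cw (X : ℕ) (s : ℝ) (n : ℕ) : ℝ := if n ≤ tx X s then Real.sqrt 2 * (Real.log n / Real.log X) else 0

lemma sqrt_two_le : Real.sqrt 2 ≤ 2 := by
  rw [Real.sqrt_le_left (by norm_num)]
  norm_num

lemma cw_le {X : ℕ} (hX : 1 ≤ Real.log X) (s : ℝ) (D p f : ℕ) (hp : 1 ≤ p) (hf : f ≤ D) :
    |cw X s (p ^ f)| ≤ 2 * D * (Real.log p / Real.log X) := by
  have hp1 : (1 : ℝ) ≤ p := by exact_mod_cast hp
  have hl : 0 ≤ Real.log p := Real.log_nonneg hp1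
  unfold cw
  split_ifs
  · have h1 : Real.log ((p ^ f : ℕ) : ℝ) = f * Real.log p := by
      push_cast
      rw [Real.log_pow]
    rw [h1, abs_mul, abs_of_nonneg (Real.sqrt_nonneg 2), abs_of_nonneg (by positivity)]
    have h2 : (f : ℝ) ≤ D := by exact_mod_cast hf
    have h3 : (f : ℝ) * Real.log p / Real.log X ≤ D * (Real.log p / Real.log X) := by
      rw [mul_div_assoc]
      exact mul_le_mul_of_nonneg_right h2 (by positivity)
    calc Real.sqrt 2 * (f * Real.log p / Real.log X) ≤ 2 * (D * (Real.log p / Real.log X)) :=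
          mul_le_mul sqrt_two_le h3 (by positivity) (by norm_num)
      _ = _ := by ring
  · rw [abs_zero]
    positivity

/-- the law of the weighted sums -/
theorem mn_law (K : Type) [Field K] [NumberField K] (ι : Type) [Fintype ι] [DecidableEq ι] (P₀ : ℕ) (κ B : ℝ) (hB : 0 ≤ B)
    (I : Finset ℝ≥0) (hI : ∀ s ∈ I, 0 < s ∧ s ≤ 1) (x : I → ℝ) (ε : ℝ) (hε : 0 < ε) :
    ∃ X₁ : ℕ, ∀ X : ℕ, X₁ ≤ X → ∀ (b : Fin (Module.finrank ℚ K) → 𝓞 K), (∀ x : 𝓞 K, ∃ a : Fin (Module.finrank ℚ K) → ℤ, x = ∑ j, (a j : 𝓞 K) * b j) →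
    ∀ (N : ι × Fin (Module.finrank ℚ K) → ℤ) (L : ι × Fin (Module.finrank ℚ K) → ℕ), (∀ i, (X : ℝ) ^ X₁ ≤ L i) →
    ∀ val : HeightOneSpectrum (𝓞 K) → (ι → 𝓞 K) → ℝ, Loc2 K ι P₀ κ B val →
    ∀ (E : Finset (ι × Fin (Module.finrank ℚ K) → ℤ)), (∀ n, n ∈ E ↔ n ∈ kbox N L ∧ ∀ s : I,
      ∑ v ∈ SX K X, cw X (s : ℝ≥0) (Ideal.absNorm v.asIdeal) * val v (comb b n) - Real.sqrt 2 * κ * Real.sqrt (s : ℝ≥0) ≤ x s) →
    |(E.card : ℝ) / ∏ i, (L i : ℝ) - W I x| ≤ ε := by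
  classical
  obtain ⟨C₁, hC₁0, hC₁⟩ := Hw_mean (ι := ι) K P₀ κ B hB
  obtain ⟨C₂, hC₂0, hC₂⟩ := Hw_mul (ι := ι) K P₀ κ B hB
  obtain ⟨C₀, hC₀0, hC₀⟩ := summ_log
  obtain ⟨M, hM⟩ := Pool.Agent.Helper256.KM.mertens_log
  obtain ⟨D, hD⟩ : ∃ D : ℝ, D = Module.finrank ℚ K := ⟨_, rfl⟩
  have hD1 : 1 ≤ D := by
    rw [hD]
    exact_mod_cast (Module.finrank_pos : 0 < Module.finrank ℚ K)
  have hM0 : 0 ≤ M := (abs_nonneg _).trans (hM 1 le_rfl)
  obtain ⟨C₃, hC₃⟩ : ∃ C₃ : ℝ, C₃ = D * B * (2 * D) := ⟨_, rfl⟩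
  have hC₃0 : 0 ≤ C₃ := by rw [hC₃]; positivity
  obtain ⟨V, hV⟩ : ∃ V : ℝ, V = C₃ + C₃ ^ 2 * (1 + M) + 1 := ⟨_, rfl⟩
  have hV1 : 1 ≤ V := by
    rw [hV]
    have : 0 ≤ C₃ + C₃ ^ 2 * (1 + M) := by positivity
    linarith
  obtain ⟨C₄, hC₄⟩ : ∃ C₄ : ℝ, C₄ = (C₃ ^ 3 + C₃ ^ 4) * C₀ + C₁ * (2 * D) * C₀ + (C₂ * (2 * D) ^ 2 + ((C₁ + |κ| * D) * (2 * D)) ^ 2) * C₀ := ⟨_, rfl⟩
  have hC₄0 : 0 ≤ C₄ := by rw [hC₄]; positivity
  obtain ⟨μ, hμ⟩ : ∃ μ : I → ℝ, μ = fun s : I => Real.sqrt 2 * κ * Real.sqrt (s : ℝ≥0) := ⟨_, rfl⟩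
  obtain ⟨δ, hδ⟩ : ∃ δ : ℕ → ℝ, δ = fun X => ∑ s : I, |Real.sqrt 2 * κ| * |A1 K (tx X (s : ℝ≥0)) / Real.log X - Real.sqrt (s : ℝ≥0)| +
    ∑ s : I, 2 * |A2 K (tx X (s : ℝ≥0)) / Real.log X ^ 2 - ((s : ℝ≥0) : ℝ) / 2| + C₄ * (1 / Real.log X) := ⟨_, rfl⟩
  have hδt : Tendsto δ atTop (𝓝 0) := by
    have t1 : ∀ s : I, Tendsto (fun X : ℕ => |Real.sqrt 2 * κ| * |A1 K (tx X (s : ℝ≥0)) / Real.log X - Real.sqrt (s : ℝ≥0)|) atTop (𝓝 0) := by
      intro s
      have h1 := ((limA1 K (s := ((s : ℝ≥0) : ℝ)) (by exact_mod_cast (hI s s.2).1)).sub_const (Real.sqrt (s : ℝ≥0))).abs.const_mul |Real.sqrt 2 * κ|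
      rwa [sub_self, abs_zero, mul_zero] at h1
    have t2 : ∀ s : I, Tendsto (fun X : ℕ => 2 * |A2 K (tx X (s : ℝ≥0)) / Real.log X ^ 2 - ((s : ℝ≥0) : ℝ) / 2|) atTop (𝓝 0) := by
      intro s
      have h1 := ((limA2 K (s := ((s : ℝ≥0) : ℝ)) (by exact_mod_cast (hI s s.2).1)).sub_const (((s : ℝ≥0) : ℝ) / 2)).abs.const_mul 2
      rwa [sub_self, abs_zero, mul_zero] at h1
    have t3 : Tendsto (fun X : ℕ => C₄ * (1 / Real.log X)) atTop (𝓝 0) := by
      have h1 := inv_logX.const_mul C₄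
      rwa [mul_zero] at h1
    have t4 := (tendsto_finsetSum (univ : Finset I) fun s _ => t1 s).add (tendsto_finsetSum (univ : Finset I) fun s _ => t2 s)
    have t5 := t4.add t3
    rw [sum_const_zero, add_zero, add_zero] at t5
    rw [hδ]
    exact t5
  obtain ⟨X₁, hX₁⟩ := fdd (κ := ι × Fin (Module.finrank ℚ K)) (μ := μ) hV1 hδt (fun s hs => (hI s hs).1) x ε hε
  refine ⟨max X₁ 3, ?_⟩
  intro X hX b hb N L hL val hloc E hE
  rw [max_le_iff] at hX
  obtain ⟨hXX₁, hX3⟩ := hX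
  have hX3' : (3 : ℝ) ≤ X := by exact_mod_cast hX3
  have hlog : 1 ≤ Real.log X := by
    rw [Real.le_log_iff_exp_le (by linarith)]
    linarith [Real.exp_one_lt_three]
  have hlog0 : 0 < Real.log X := by linarith
  obtain ⟨β, hβ⟩ : ∃ β : ℕ → ℝ, β = fun p : ℕ => C₃ * (Real.log p / Real.log X) / Real.sqrt p := ⟨_, rfl⟩
  have hlp : ∀ p : ℕ, p.Prime → 0 ≤ Real.log p / Real.log X ∧ Real.log p / Real.log X ≤ Real.sqrt p := by
    intro p hp
    have hp1 : (1 : ℝ) ≤ p := by exact_mod_cast hp.one_lt.le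
    have hl : 0 ≤ Real.log p := Real.log_nonneg hp1
    refine ⟨by positivity, (div_le_self hl hlog).trans (log_le_sqrt (by linarith))⟩
  have hlX : ∀ p ∈ PP X, Real.log p / Real.log X ≤ 1 := by
    intro p hp
    have h1 := mem_filter.1 hp
    have h2 : (p : ℝ) ≤ X := by exact_mod_cast (mem_Icc.1 h1.1).2
    rw [div_le_one hlog0]
    exact Real.log_le_log (by exact_mod_cast h1.2.pos) h2
  have hR : ∀ (s : I) (p : ℕ), p.Prime → ∀ f, 1 ≤ f → f ≤ Module.finrank ℚ K → |cw X (s : ℝ≥0) (p ^ f)| ≤ 2 * D * (Real.log p / Real.log X) := by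
    intro s p hp f _ hf
    rw [hD]
    exact cw_le hlog _ _ p f hp.one_lt.le hf
  have hprime : ∀ p ∈ PP X, p.Prime := fun p hp => (mem_filter.1 hp).2
  have hp32 : ∀ p : ℕ, (p : ℝ) ^ (3 / 2 : ℝ) = Real.sqrt p ^ 3 := by
    intro p
    rw [Real.sqrt_eq_rpow, ← Real.rpow_natCast, ← Real.rpow_mul (Nat.cast_nonneg _)]
    norm_num
  have hsum32 : ∑ p ∈ PP X, (Real.log p / Real.log X) / (p : ℝ) ^ (3 / 2 : ℝ) ≤ C₀ * (1 / Real.log X) := by
    have h1 : ∑ p ∈ PP X, (Real.log p / Real.log X) / (p : ℝ) ^ (3 / 2 : ℝ) = (∑ p ∈ PP X, Real.log p / (p : ℝ) ^ (3 / 2 : ℝ)) * (1 / Real.log X) := by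
      rw [sum_mul]
      exact sum_congr rfl fun p _ => by ring
    rw [h1]
    exact mul_le_mul_of_nonneg_right (hC₀ _ hprime) (by positivity)
  have ha : ∀ s : I, tx X (s : ℝ≥0) ≤ X := fun s => tx_le (by omega) (by exact_mod_cast (hI s s.2).2)
  have hinvX : 0 ≤ 1 / Real.log X := by positivity
  -- the means
  have hmn : ∀ (s : I) (p : ℕ), p.Prime → |mn (fun p u => Hw val b (cw X (s : ℝ≥0)) p u) p - cw X (s : ℝ≥0) p * (κ * (nu K p / p))| ≤
      C₁ * (2 * D) * ((Real.log p / Real.log X) / (p : ℝ) ^ (3 / 2 : ℝ)) := by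
    intro s p hp
    have : Fact p.Prime := ⟨hp⟩
    rw [mn_eq]
    have h1 := hC₁ val hloc ⟨p, hp⟩ (Module.finrank ℚ K) b hb (cw X (s : ℝ≥0)) (2 * D * (Real.log p / Real.log X))
      (mul_nonneg (by positivity) (hlp p hp).1) (hR s p hp)
    refine le_trans h1 (le_of_eq ?_)
    show C₁ * (2 * D * (Real.log p / Real.log X)) / (p : ℝ) ^ (3 / 2 : ℝ) = _
    ring
  have hmn2 : ∀ (s : I) (p : ℕ), p ∈ PP X → |mn (fun p u => Hw val b (cw X (s : ℝ≥0)) p u) p| ≤
      (C₁ + |κ| * D) * (2 * D) * ((Real.log p / Real.log X) / p) := by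
    intro s p hpp
    have hp := hprime p hpp
    have hp1 : (1 : ℝ) ≤ p := by exact_mod_cast hp.one_lt.le
    obtain ⟨hl0, -⟩ := hlp p hp
    have h1 := hmn s p hp
    have h2 : |cw X (s : ℝ≥0) p * (κ * (nu K p / p))| ≤ |κ| * D * (2 * D) * ((Real.log p / Real.log X) / p) := by
      obtain ⟨hn0, hn1⟩ := nu_le (K := K) ⟨p, hp⟩
      rw [← hD] at hn1
      have hn1' : nu K p ≤ D := hn1
      have hn0' : 0 ≤ nu K p := hn0
      have h3 := hR s p hp 1 le_rfl (Module.finrank_pos)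
      rw [pow_one] at h3
      rw [abs_mul, abs_mul, abs_div, abs_of_nonneg hn0', abs_of_pos (by linarith : (0 : ℝ) < p)]
      have h4 : |κ| * (nu K p / p) ≤ |κ| * (D / p) := mul_le_mul_of_nonneg_left (div_le_div_of_nonneg_right hn1' (by linarith)) (abs_nonneg _)
      calc _ ≤ (2 * D * (Real.log p / Real.log X)) * (|κ| * (D / p)) := mul_le_mul h3 h4 (by positivity) (by positivity)
        _ = _ := by ring
    have h3 : (Real.log p / Real.log X) / (p : ℝ) ^ (3 / 2 : ℝ) ≤ (Real.log p / Real.log X) / p :=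
      div_le_div_of_nonneg_left hl0 (by linarith) (norm_three hp1)
    have h4 : C₁ * (2 * D) * ((Real.log p / Real.log X) / (p : ℝ) ^ (3 / 2 : ℝ)) ≤ C₁ * (2 * D) * ((Real.log p / Real.log X) / p) :=
      mul_le_mul_of_nonneg_left h3 (by positivity)
    have h5 := abs_add_le (mn (fun p u => Hw val b (cw X (s : ℝ≥0)) p u) p - cw X (s : ℝ≥0) p * (κ * (nu K p / p))) (cw X (s : ℝ≥0) p * (κ * (nu K p / p)))
    rw [sub_add_cancel] at h5
    have h6 : (C₁ + |κ| * D) * (2 * D) * ((Real.log p / Real.log X) / p) = C₁ * (2 * D) * ((Real.log p / Real.log X) / p) + |κ| * D * (2 * D) * ((Real.log p / Real.log X) / p) := by ring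
    linarith
  have hmul : ∀ (s s' : I) (p : ℕ), p ∈ PP X → |mn (fun p u => Hw val b (cw X (s : ℝ≥0)) p u * Hw val b (cw X (s' : ℝ≥0)) p u) p -
      cw X (s : ℝ≥0) p * cw X (s' : ℝ≥0) p * (nu K p / p)| ≤ C₂ * (2 * D) ^ 2 * ((Real.log p / Real.log X) / (p : ℝ) ^ (3 / 2 : ℝ)) := by
    intro s s' p hpp
    have hp := hprime p hpp
    have hp1 : (1 : ℝ) ≤ p := by exact_mod_cast hp.one_lt.le
    have : Fact p.Prime := ⟨hp⟩
    obtain ⟨hl0, -⟩ := hlp p hp
    rw [mn_eq]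
    have h1 := hC₂ val hloc ⟨p, hp⟩ (Module.finrank ℚ K) b hb (cw X (s : ℝ≥0)) (cw X (s' : ℝ≥0)) (2 * D * (Real.log p / Real.log X))
      (mul_nonneg (by positivity) hl0) (hR s p hp) (hR s' p hp)
    refine le_trans h1 ?_
    show C₂ * (2 * D * (Real.log p / Real.log X)) ^ 2 / (p : ℝ) ^ (3 / 2 : ℝ) ≤ _
    have h2 : (Real.log p / Real.log X) ^ 2 ≤ Real.log p / Real.log X := by
      rw [sq]
      exact mul_le_of_le_one_left hl0 (hlX p hpp)
    have h3 : 0 ≤ C₂ * (2 * D) ^ 2 := by positivity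
    calc C₂ * (2 * D * (Real.log p / Real.log X)) ^ 2 / (p : ℝ) ^ (3 / 2 : ℝ) = (C₂ * (2 * D) ^ 2) * ((Real.log p / Real.log X) ^ 2 / (p : ℝ) ^ (3 / 2 : ℝ)) := by ring
      _ ≤ _ := mul_le_mul_of_nonneg_left (div_le_div_of_nonneg_right h2 (by positivity)) h3
  -- the data
  have hb' : ∃ bb : Dat3 (ι × Fin (Module.finrank ℚ K)) I V δ μ, bb.X = X ∧ bb.k = max X₁ 3 ∧ bb.N = N ∧ bb.L = L ∧
      bb.h = fun (s : I) p u => Hw val b (cw X (s : ℝ≥0)) p u := by
    refine ⟨{ X := X, k := max X₁ 3, N := N, L := L, h := (fun (s : I) p u => Hw val b (cw X (s : ℝ≥0)) p u), β := β, hX := (by omega), hL := hL, hβ := ?_, hh := ?_, hV := ?_, h3 := ?_, hm := ?_, hc := ?_ }, rfl, rfl, rfl, rfl, rfl⟩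
    · intro p hp
      have hp1 : (1 : ℝ) ≤ p := by exact_mod_cast hp.one_lt.le
      have hs0 : 0 < Real.sqrt p := Real.sqrt_pos.2 (by linarith)
      obtain ⟨hl0, hl1⟩ := hlp p hp
      rw [hβ]
      refine ⟨by positivity, ?_⟩
      show C₃ * (Real.log p / Real.log X) / Real.sqrt p ≤ V
      rw [div_le_iff₀ hs0]
      have h1 : C₃ * (Real.log p / Real.log X) ≤ C₃ * Real.sqrt p := mul_le_mul_of_nonneg_left hl1 hC₃0
      have h2 : C₃ * Real.sqrt p ≤ V * Real.sqrt p := by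
        refine mul_le_mul_of_nonneg_right ?_ hs0.le
        rw [hV]
        have : 0 ≤ C₃ ^ 2 * (1 + M) := by positivity
        linarith
      linarith
    · intro s p hp u
      obtain ⟨hl0, -⟩ := hlp p hp
      refine (Hw_le hloc hB b (cw X (s : ℝ≥0)) p hp (R := 2 * D * (Real.log p / Real.log X)) (mul_nonneg (by positivity) hl0) (hR s p hp) u).trans ?_
      rw [hβ, hC₃, ← hD]
      refine le_of_eq ?_
      ring
    · have h1 : ∑ p ∈ PP X, β p ^ 2 ≤ C₃ ^ 2 * ((∑ p ∈ PP X, Real.log p / p) * (1 / Real.log X)) := by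
        rw [sum_mul, mul_sum]
        refine sum_le_sum fun p hp => ?_
        have hpp := hprime p hp
        have hp1 : (1 : ℝ) ≤ p := by exact_mod_cast hpp.one_lt.le
        obtain ⟨hl0, -⟩ := hlp p hpp
        rw [hβ]
        show (C₃ * (Real.log p / Real.log X) / Real.sqrt p) ^ 2 ≤ _
        rw [div_pow, Real.sq_sqrt (by linarith), mul_pow]
        have h2 : (Real.log p / Real.log X) ^ 2 ≤ Real.log p / Real.log X := by
          rw [sq]
          exact mul_le_of_le_one_left hl0 (hlX p hp)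
        calc C₃ ^ 2 * (Real.log p / Real.log X) ^ 2 / p = C₃ ^ 2 * ((Real.log p / Real.log X) ^ 2 / p) := by ring
          _ ≤ C₃ ^ 2 * ((Real.log p / Real.log X) / p) := mul_le_mul_of_nonneg_left (div_le_div_of_nonneg_right h2 (by linarith)) (by positivity)
          _ = _ := by ring
      refine h1.trans ?_
      have h2 := (abs_le.1 (hM X (by omega))).2
      have h2' : ∑ p ∈ PP X, Real.log p / p - Real.log X ≤ M := h2
      have h3 : (∑ p ∈ PP X, Real.log p / p) * (1 / Real.log X) ≤ 1 + M := by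
        rw [mul_one_div, div_le_iff₀ hlog0]
        have : M * 1 ≤ M * Real.log X := mul_le_mul_of_nonneg_left hlog hM0
        rw [add_mul, one_mul]
        linarith
      have h4 := mul_le_mul_of_nonneg_left h3 (by positivity : 0 ≤ C₃ ^ 2)
      rw [hV]
      linarith
    · have h1 : ∑ p ∈ PP X, (β p ^ 3 + β p ^ 4) ≤ (C₃ ^ 3 + C₃ ^ 4) * ∑ p ∈ PP X, (Real.log p / Real.log X) / (p : ℝ) ^ (3 / 2 : ℝ) := by
        rw [mul_sum]
        refine sum_le_sum fun p hp => ?_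
        have hpp := hprime p hp
        have hp1 : (1 : ℝ) ≤ p := by exact_mod_cast hpp.one_lt.le
        have hs1 : 1 ≤ Real.sqrt p := Real.one_le_sqrt.2 hp1
        obtain ⟨hl0, -⟩ := hlp p hpp
        have hl1 := hlX p hp
        obtain ⟨l, hl⟩ : ∃ l : ℝ, l = Real.log p / Real.log X := ⟨_, rfl⟩
        obtain ⟨q, hq⟩ : ∃ q : ℝ, q = Real.sqrt p := ⟨_, rfl⟩
        rw [hβ]
        show (C₃ * (Real.log p / Real.log X) / Real.sqrt p) ^ 3 + (C₃ * (Real.log p / Real.log X) / Real.sqrt p) ^ 4 ≤ _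
        rw [hp32, ← hl, ← hq]
        rw [← hl] at hl0 hl1
        rw [← hq] at hs1
        have e3 : l ^ 3 ≤ l := by
          calc l ^ 3 ≤ l ^ 1 := pow_le_pow_of_le_one hl0 hl1 (by norm_num)
            _ = l := pow_one l
        have e4 : l ^ 4 ≤ l := by
          calc l ^ 4 ≤ l ^ 1 := pow_le_pow_of_le_one hl0 hl1 (by norm_num)
            _ = l := pow_one l
        have hq0 : 0 < q := by linarith
        have q4 : q ^ 3 ≤ q ^ 4 := pow_le_pow_right₀ hs1 (by norm_num)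
        have f3 : (C₃ * l / q) ^ 3 ≤ C₃ ^ 3 * (l / q ^ 3) := by
          rw [div_pow, mul_pow, mul_div_assoc]
          exact mul_le_mul_of_nonneg_left (div_le_div_of_nonneg_right e3 (by positivity)) (by positivity)
        have f4 : (C₃ * l / q) ^ 4 ≤ C₃ ^ 4 * (l / q ^ 3) := by
          rw [div_pow, mul_pow, mul_div_assoc]
          refine mul_le_mul_of_nonneg_left ?_ (by positivity)
          exact (div_le_div_of_nonneg_right e4 (by positivity)).trans (div_le_div_of_nonneg_left hl0 (by positivity) q4)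
        linarith
      refine h1.trans ?_
      have h2 := mul_le_mul_of_nonneg_left hsum32 (by positivity : 0 ≤ C₃ ^ 3 + C₃ ^ 4)
      rw [hδ]
      have h3 : 0 ≤ ∑ s : I, |Real.sqrt 2 * κ| * |A1 K (tx X (s : ℝ≥0)) / Real.log X - Real.sqrt (s : ℝ≥0)| := sum_nonneg fun s _ => by positivity
      have h4 : 0 ≤ ∑ s : I, 2 * |A2 K (tx X (s : ℝ≥0)) / Real.log X ^ 2 - ((s : ℝ≥0) : ℝ) / 2| := sum_nonneg fun s _ => by positivity
      have h5 : (C₃ ^ 3 + C₃ ^ 4) * (C₀ * (1 / Real.log X)) ≤ C₄ * (1 / Real.log X) := by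
        rw [← mul_assoc]
        refine mul_le_mul_of_nonneg_right ?_ hinvX
        rw [hC₄]
        have e1 : 0 ≤ C₁ * (2 * D) * C₀ := by positivity
        have e2 : 0 ≤ (C₂ * (2 * D) ^ 2 + ((C₁ + |κ| * D) * (2 * D)) ^ 2) * C₀ := by positivity
        linarith
      linarith
    · intro s
      have h1 : |∑ p ∈ PP X, mn (fun p u => Hw val b (cw X (s : ℝ≥0)) p u) p - ∑ p ∈ PP X, cw X (s : ℝ≥0) p * (κ * (nu K p / p))| ≤
          C₁ * (2 * D) * (C₀ * (1 / Real.log X)) := by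
        rw [← sum_sub_distrib]
        refine (abs_sum_le_sum_abs _ _).trans ((sum_le_sum fun p hp => hmn s p (hprime p hp)).trans ?_)
        rw [← mul_sum]
        exact mul_le_mul_of_nonneg_left hsum32 (by positivity)
      have h2 : ∑ p ∈ PP X, cw X (s : ℝ≥0) p * (κ * (nu K p / p)) = Real.sqrt 2 * κ * (A1 K (tx X (s : ℝ≥0)) / Real.log X) := by
        unfold A1 cw
        rw [← PP_filter (ha s), sum_filter (fun p : ℕ => p ≤ tx X (s : ℝ≥0)), sum_div, mul_sum]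
        refine sum_congr rfl fun p _ => ?_
        split_ifs
        · ring
        · ring
      rw [h2] at h1
      have h3 : |Real.sqrt 2 * κ * (A1 K (tx X (s : ℝ≥0)) / Real.log X) - μ s| = |Real.sqrt 2 * κ| * |A1 K (tx X (s : ℝ≥0)) / Real.log X - Real.sqrt (s : ℝ≥0)| := by
        rw [hμ, ← abs_mul]
        congr 1
        ring
      have h4 := abs_add_le (∑ p ∈ PP X, mn (fun p u => Hw val b (cw X (s : ℝ≥0)) p u) p - Real.sqrt 2 * κ * (A1 K (tx X (s : ℝ≥0)) / Real.log X))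
        (Real.sqrt 2 * κ * (A1 K (tx X (s : ℝ≥0)) / Real.log X) - μ s)
      rw [sub_add_sub_cancel] at h4
      refine h4.trans ?_
      rw [h3, hδ]
      have h5 := single_le_sum (f := fun s : I => |Real.sqrt 2 * κ| * |A1 K (tx X (s : ℝ≥0)) / Real.log X - Real.sqrt (s : ℝ≥0)|)
        (fun _ _ => by positivity) (mem_univ s)
      have h5' : |Real.sqrt 2 * κ| * |A1 K (tx X (s : ℝ≥0)) / Real.log X - Real.sqrt (s : ℝ≥0)| ≤
        ∑ s : I, |Real.sqrt 2 * κ| * |A1 K (tx X (s : ℝ≥0)) / Real.log X - Real.sqrt (s : ℝ≥0)| := h5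
      have h6 : 0 ≤ ∑ s : I, 2 * |A2 K (tx X (s : ℝ≥0)) / Real.log X ^ 2 - ((s : ℝ≥0) : ℝ) / 2| := sum_nonneg fun s _ => by positivity
      have h7 : C₁ * (2 * D) * (C₀ * (1 / Real.log X)) ≤ C₄ * (1 / Real.log X) := by
        rw [← mul_assoc]
        refine mul_le_mul_of_nonneg_right ?_ hinvX
        rw [hC₄]
        have e1 : 0 ≤ (C₃ ^ 3 + C₃ ^ 4) * C₀ := by positivity
        have e2 : 0 ≤ (C₂ * (2 * D) ^ 2 + ((C₁ + |κ| * D) * (2 * D)) ^ 2) * C₀ := by positivity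
        linarith
      linarith
    · -- covariances
      have main : ∀ s s' : I, (s : ℝ≥0) ≤ (s' : ℝ≥0) → |∑ p ∈ PP X, (mn (fun p u => Hw val b (cw X (s : ℝ≥0)) p u * Hw val b (cw X (s' : ℝ≥0)) p u) p -
          mn (fun p u => Hw val b (cw X (s : ℝ≥0)) p u) p * mn (fun p u => Hw val b (cw X (s' : ℝ≥0)) p u) p) - ((s : ℝ≥0) : ℝ)| ≤ δ X := by
        intro s s' hss
        have h1 : |∑ p ∈ PP X, (mn (fun p u => Hw val b (cw X (s : ℝ≥0)) p u * Hw val b (cw X (s' : ℝ≥0)) p u) p -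
          mn (fun p u => Hw val b (cw X (s : ℝ≥0)) p u) p * mn (fun p u => Hw val b (cw X (s' : ℝ≥0)) p u) p) -
          ∑ p ∈ PP X, cw X (s : ℝ≥0) p * cw X (s' : ℝ≥0) p * (nu K p / p)| ≤
          (C₂ * (2 * D) ^ 2 + ((C₁ + |κ| * D) * (2 * D)) ^ 2) * (C₀ * (1 / Real.log X)) := by
          rw [← sum_sub_distrib]
          refine (abs_sum_le_sum_abs _ _).trans ?_
          have h2 : ∀ p ∈ PP X, |mn (fun p u => Hw val b (cw X (s : ℝ≥0)) p u * Hw val b (cw X (s' : ℝ≥0)) p u) p -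
              mn (fun p u => Hw val b (cw X (s : ℝ≥0)) p u) p * mn (fun p u => Hw val b (cw X (s' : ℝ≥0)) p u) p -
              cw X (s : ℝ≥0) p * cw X (s' : ℝ≥0) p * (nu K p / p)| ≤
              (C₂ * (2 * D) ^ 2 + ((C₁ + |κ| * D) * (2 * D)) ^ 2) * ((Real.log p / Real.log X) / (p : ℝ) ^ (3 / 2 : ℝ)) := by
            intro p hp
            have hpp := hprime p hp
            have hp1 : (1 : ℝ) ≤ p := by exact_mod_cast hpp.one_lt.le
            obtain ⟨hl0, -⟩ := hlp p hpp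
            have hl1 := hlX p hp
            have h3 := hmul s s' p hp
            have h4 := mul_le_mul (hmn2 s p hp) (hmn2 s' p hp) (abs_nonneg _) (by positivity)
            rw [← abs_mul] at h4
            have h5 : (C₁ + |κ| * D) * (2 * D) * ((Real.log p / Real.log X) / p) * ((C₁ + |κ| * D) * (2 * D) * ((Real.log p / Real.log X) / p)) ≤
                ((C₁ + |κ| * D) * (2 * D)) ^ 2 * ((Real.log p / Real.log X) / (p : ℝ) ^ (3 / 2 : ℝ)) := by
              have h6 : (C₁ + |κ| * D) * (2 * D) * ((Real.log p / Real.log X) / p) * ((C₁ + |κ| * D) * (2 * D) * ((Real.log p / Real.log X) / p)) =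
                ((C₁ + |κ| * D) * (2 * D)) ^ 2 * ((Real.log p / Real.log X) * (Real.log p / Real.log X) / (p : ℝ) ^ 2) := by ring
              rw [h6]
              refine mul_le_mul_of_nonneg_left ?_ (by positivity)
              refine (div_le_div_of_nonneg_right (mul_le_of_le_one_left hl0 hl1) (by positivity)).trans ?_
              exact div_le_div_of_nonneg_left hl0 (by positivity) (three_le hp1 le_rfl)
            have h7 : mn (fun p u => Hw val b (cw X (s : ℝ≥0)) p u * Hw val b (cw X (s' : ℝ≥0)) p u) p -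
              mn (fun p u => Hw val b (cw X (s : ℝ≥0)) p u) p * mn (fun p u => Hw val b (cw X (s' : ℝ≥0)) p u) p -
              cw X (s : ℝ≥0) p * cw X (s' : ℝ≥0) p * (nu K p / p) =
              (mn (fun p u => Hw val b (cw X (s : ℝ≥0)) p u * Hw val b (cw X (s' : ℝ≥0)) p u) p -
              cw X (s : ℝ≥0) p * cw X (s' : ℝ≥0) p * (nu K p / p)) -
              mn (fun p u => Hw val b (cw X (s : ℝ≥0)) p u) p * mn (fun p u => Hw val b (cw X (s' : ℝ≥0)) p u) p := by ring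
            rw [h7]
            refine (abs_sub _ _).trans ?_
            rw [add_mul]
            linarith
          refine (sum_le_sum h2).trans ?_
          rw [← mul_sum]
          exact mul_le_mul_of_nonneg_left hsum32 (by positivity)
        have h2 : ∑ p ∈ PP X, cw X (s : ℝ≥0) p * cw X (s' : ℝ≥0) p * (nu K p / p) = 2 * (A2 K (tx X (s : ℝ≥0)) / Real.log X ^ 2) := by
          unfold A2 cw
          rw [← PP_filter (ha s), sum_filter (fun p : ℕ => p ≤ tx X (s : ℝ≥0)), sum_div, mul_sum]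
          refine sum_congr rfl fun p _ => ?_
          by_cases h3 : p ≤ tx X (s : ℝ≥0)
          · have h4 : p ≤ tx X (s' : ℝ≥0) := h3.trans (tx_mono (by omega) (by exact_mod_cast hss))
            rw [if_pos h3, if_pos h4, if_pos h3]
            have h5 : Real.sqrt 2 * Real.sqrt 2 = 2 := Real.mul_self_sqrt (by norm_num)
            calc Real.sqrt 2 * (Real.log p / Real.log X) * (Real.sqrt 2 * (Real.log p / Real.log X)) * (nu K p / p) =
                  (Real.sqrt 2 * Real.sqrt 2) * ((Real.log p / Real.log X) * (Real.log p / Real.log X) * (nu K p / p)) := by ring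
              _ = _ := by
                rw [h5]
                ring
          · rw [if_neg h3, if_neg h3]
            ring
        rw [h2] at h1
        have h3 : |2 * (A2 K (tx X (s : ℝ≥0)) / Real.log X ^ 2) - ((s : ℝ≥0) : ℝ)| = 2 * |A2 K (tx X (s : ℝ≥0)) / Real.log X ^ 2 - ((s : ℝ≥0) : ℝ) / 2| := by
          have e1 : 2 * (A2 K (tx X (s : ℝ≥0)) / Real.log X ^ 2) - ((s : ℝ≥0) : ℝ) = 2 * (A2 K (tx X (s : ℝ≥0)) / Real.log X ^ 2 - ((s : ℝ≥0) : ℝ) / 2) := by ring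
          rw [e1, abs_mul, abs_of_pos (by norm_num : (0 : ℝ) < 2)]
        have h4 := abs_add_le (∑ p ∈ PP X, (mn (fun p u => Hw val b (cw X (s : ℝ≥0)) p u * Hw val b (cw X (s' : ℝ≥0)) p u) p -
          mn (fun p u => Hw val b (cw X (s : ℝ≥0)) p u) p * mn (fun p u => Hw val b (cw X (s' : ℝ≥0)) p u) p) -
          2 * (A2 K (tx X (s : ℝ≥0)) / Real.log X ^ 2)) (2 * (A2 K (tx X (s : ℝ≥0)) / Real.log X ^ 2) - ((s : ℝ≥0) : ℝ))
        rw [sub_add_sub_cancel] at h4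
        refine h4.trans ?_
        rw [h3, hδ]
        have h5 := single_le_sum (f := fun s : I => 2 * |A2 K (tx X (s : ℝ≥0)) / Real.log X ^ 2 - ((s : ℝ≥0) : ℝ) / 2|)
          (fun _ _ => by positivity) (mem_univ s)
        have h5' : 2 * |A2 K (tx X (s : ℝ≥0)) / Real.log X ^ 2 - ((s : ℝ≥0) : ℝ) / 2| ≤
          ∑ s : I, 2 * |A2 K (tx X (s : ℝ≥0)) / Real.log X ^ 2 - ((s : ℝ≥0) : ℝ) / 2| := h5
        have h6 : 0 ≤ ∑ s : I, |Real.sqrt 2 * κ| * |A1 K (tx X (s : ℝ≥0)) / Real.log X - Real.sqrt (s : ℝ≥0)| := sum_nonneg fun s _ => by positivity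
        have h7 : (C₂ * (2 * D) ^ 2 + ((C₁ + |κ| * D) * (2 * D)) ^ 2) * (C₀ * (1 / Real.log X)) ≤ C₄ * (1 / Real.log X) := by
          rw [← mul_assoc]
          refine mul_le_mul_of_nonneg_right ?_ hinvX
          rw [hC₄]
          have e1 : 0 ≤ (C₃ ^ 3 + C₃ ^ 4) * C₀ := by positivity
          have e2 : 0 ≤ C₁ * (2 * D) * C₀ := by positivity
          linarith
        linarith
      intro s s'
      rcases le_total (s : ℝ≥0) (s' : ℝ≥0) with hss | hss
      · rw [min_eq_left hss]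
        exact main s s' hss
      · rw [min_eq_right hss]
        have h1 := main s' s hss
        refine le_trans (le_of_eq ?_) h1
        congr 2
        refine sum_congr rfl fun p _ => ?_
        have e1 : (fun (p : ℕ) u => Hw val b (cw X (s : ℝ≥0)) p u * Hw val b (cw X (s' : ℝ≥0)) p u) = fun p u => Hw val b (cw X (s' : ℝ≥0)) p u * Hw val b (cw X (s : ℝ≥0)) p u := by
          funext p u
          ring
        rw [e1]
        ring
  obtain ⟨bb, hbX, hbk, hbN, hbL, hbh⟩ := hb'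
  have h1 := hX₁ bb (by rw [hbX]; exact hXX₁) (by rw [hbk]; exact le_max_left _ _)
  rw [hbX, hbN, hbL, hbh] at h1
  have h2 : (kbox N L).filter (fun t => ∀ s : I, ∑ p ∈ PP X, Hw val b (cw X (s : ℝ≥0)) p (fun i => (t i : ZMod p)) - μ s ≤ x s) = E := by
    ext n
    rw [mem_filter, hE]
    refine and_congr_right fun _ => forall_congr' fun s => ?_
    rw [sum_Hw hloc b (cw X (s : ℝ≥0)) X (fun m hm => by
      unfold cw
      rw [if_neg]
      exact not_le.2 (lt_of_le_of_lt (ha s) hm)) n, hμ]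
  rw [h2] at h1
  exact h1

end Q282.MN
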